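import Mathlib
import Pool.Agent.Helper75.LP.Defs

/-!
# LP-L1: limits of empirical measures of pairs

Proof.  For each `j` with `M j, N j ≥ 1` let `E j : ProbabilityMeasure (Tor × Tor)` be the empirical
measure of the points `(2 ^ a 3 ^ b x_j, 2 ^ a 3 ^ b y_j)` (a finite average of Dirac measures), and
anything for the other `j` (which are negligible for `U`).  `ProbabilityMeasure (Tor × Tor)` is
compact (`instCompactSpaceProbabilityMeasure`, `Mathlib.MeasureTheory.Measure.Prokhorov`), so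
`U.map E` converges to some `J` (`Ultrafilter.le_nhds_lim` or `isCompact_univ.ultrafilter_le_nhds`);
convergence of the integrals of continuous functions: `ProbabilityMeasure.tendsto_iff_forall_integral_tendsto`
for real bounded continuous functions, real and imaginary parts for complex ones.
Invariance: for continuous `F` the averages of `F ∘ T2 2` and of `F` over the box differ by at most
`2 ‖F‖ / M j` (in `a` the sums telescope), similarly for `3` and `N j`; so `∫ F ∘ T2 s dJ = ∫ F dJ`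
for all continuous `F`, hence `J.map (T2 s) = J` (`ext_of_forall_integral_eq_of_IsFiniteMeasure`).
-/

set_option autoImplicit false

open MeasureTheory Finset Filter Topology

namespace Helper75.LP

open Pool.Agent.Helper61.FR

/-- the points of the empirical measure -/
noncomputable def L1pt (x y : Tor) (a b : ℕ) : Tor × Tor :=
  ((2 ^ a * 3 ^ b : ℕ) • x, (2 ^ a * 3 ^ b : ℕ) • y)

/-- the empirical measure -/
noncomputable def L1E (M N : ℕ) (x y : Tor) : Measure (Tor × Tor) :=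
  ((M * N : ℕ) : ENNReal)⁻¹ • ∑ a ∈ range M, ∑ b ∈ range N, Measure.dirac (L1pt x y a b)

lemma L1E_prob (M N : ℕ) (x y : Tor) (hM : 1 ≤ M) (hN : 1 ≤ N) :
    IsProbabilityMeasure (L1E M N x y) := by
  constructor
  unfold L1E
  rw [Measure.smul_apply, Measure.finsetSum_apply]
  simp only [Measure.finsetSum_apply, measure_univ, sum_const, card_range, smul_eq_mul,
    nsmul_eq_mul, mul_one]
  have h0 : 0 < M * N := Nat.mul_pos hM hN
  rw [Nat.cast_mul]
  rw [ENNReal.inv_mul_cancel]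
  · rw [← Nat.cast_mul]
    exact_mod_cast h0.ne'
  · rw [← Nat.cast_mul]
    exact ENNReal.natCast_ne_top _

lemma L1E_integral (M N : ℕ) (x y : Tor) (F : C(Tor × Tor, ℂ)) :
    ∫ p, F p ∂(L1E M N x y) = (∑ a ∈ range M, ∑ b ∈ range N, F (L1pt x y a b)) / ((M : ℂ) * N) := by
  unfold L1E
  have hi : ∀ q : Tor × Tor, Integrable (fun p => F p) (Measure.dirac q) := fun q =>
    F.continuous.integrable_of_hasCompactSupport (HasCompactSupport.of_compactSpace _)
  rw [integral_smul_measure, integral_finsetSum_measure]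
  · have h1 : ∀ a ∈ range M, ∫ p, F p ∂(∑ b ∈ range N, Measure.dirac (L1pt x y a b)) =
        ∑ b ∈ range N, F (L1pt x y a b) := by
      intro a _
      rw [integral_finsetSum_measure (fun b _ => hi _)]
      exact sum_congr rfl fun b _ => integral_dirac _ _
    rw [sum_congr rfl h1, div_eq_inv_mul]
    rw [ENNReal.toReal_inv, ENNReal.toReal_natCast, Complex.real_smul]
    push_cast
    rfl
  · intro a _
    exact integrable_finsetSum_measure.mpr fun b _ => hi _

lemma L1pt_two (x y : Tor) (a b : ℕ) : T2 2 (L1pt x y a b) = L1pt x y (a + 1) b := by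
  unfold T2 L1pt
  simp only [smul_smul]
  rw [show 2 * (2 ^ a * 3 ^ b) = 2 ^ (a + 1) * 3 ^ b by ring]

lemma L1pt_three (x y : Tor) (a b : ℕ) : T2 3 (L1pt x y a b) = L1pt x y a (b + 1) := by
  unfold T2 L1pt
  simp only [smul_smul]
  rw [show 3 * (2 ^ a * 3 ^ b) = 2 ^ a * 3 ^ (b + 1) by ring]

lemma L1T2_cont (s : ℕ) : Continuous (T2 s) := by
  unfold T2
  fun_prop

/-- telescoping bound -/
lemma L1tel (M N : ℕ) (g : ℕ → ℕ → ℂ) (C : ℝ) (hg : ∀ a b, ‖g a b‖ ≤ C) (hM : 1 ≤ M) (hN : 1 ≤ N) :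
    ‖(∑ a ∈ range M, ∑ b ∈ range N, g (a + 1) b) / ((M : ℂ) * N) -
      (∑ a ∈ range M, ∑ b ∈ range N, g a b) / ((M : ℂ) * N)‖ ≤ 2 * C / M := by
  have hM0 : (0 : ℝ) < M := by exact_mod_cast hM
  have hN0 : (0 : ℝ) < N := by exact_mod_cast hN
  rw [← sub_div, ← sum_sub_distrib]
  have h1 : ∑ a ∈ range M, (∑ b ∈ range N, g (a + 1) b - ∑ b ∈ range N, g a b) =
      ∑ b ∈ range N, g M b - ∑ b ∈ range N, g 0 b :=
    sum_range_sub (fun a => ∑ b ∈ range N, g a b) M
  rw [h1, norm_div, norm_mul, Complex.norm_natCast, Complex.norm_natCast]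
  have h2 : ‖∑ b ∈ range N, g M b - ∑ b ∈ range N, g 0 b‖ ≤ 2 * C * N := by
    have h3 : ∀ a, ‖∑ b ∈ range N, g a b‖ ≤ N * C := by
      intro a
      calc _ ≤ ∑ b ∈ range N, ‖g a b‖ := norm_sum_le _ _
        _ ≤ ∑ _b ∈ range N, C := sum_le_sum fun b _ => hg a b
        _ = _ := by rw [sum_const, card_range, nsmul_eq_mul]
    have := norm_sub_le (∑ b ∈ range N, g M b) (∑ b ∈ range N, g 0 b)
    linarith [h3 M, h3 0]
  rw [div_le_div_iff₀ (by positivity) hM0]
  have := mul_le_mul_of_nonneg_right h2 hM0.le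
  nlinarith [this]

theorem exists_limit (U : Ultrafilter ℕ) (M N : ℕ → ℕ) (hM : Tendsto M U atTop)
    (hN : Tendsto N U atTop) (x y : ℕ → Tor) :
    ∃ J : Measure (Tor × Tor), IsProbabilityMeasure J ∧
      (∀ F : C(Tor × Tor, ℂ), Tendsto (fun j => (∑ a ∈ range (M j), ∑ b ∈ range (N j),
        F ((2 ^ a * 3 ^ b : ℕ) • x j, (2 ^ a * 3 ^ b : ℕ) • y j)) / ((M j : ℂ) * N j)) U
        (𝓝 (∫ p, F p ∂J))) ∧
      MeasurePreserving (T2 2) J J ∧ MeasurePreserving (T2 3) J J := by
  classical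
  have hM1 : ∀ᶠ j in (U : Filter ℕ), 1 ≤ M j := hM.eventually_ge_atTop 1
  have hN1 : ∀ᶠ j in (U : Filter ℕ), 1 ≤ N j := hN.eventually_ge_atTop 1
  let E : ℕ → ProbabilityMeasure (Tor × Tor) := fun j =>
    if h : 1 ≤ M j ∧ 1 ≤ N j then ⟨L1E (M j) (N j) (x j) (y j), L1E_prob _ _ _ _ h.1 h.2⟩
    else ⟨Measure.dirac 0, inferInstance⟩
  obtain ⟨J, -, hJ⟩ := isCompact_univ.ultrafilter_le_nhds (U.map E) (by simp)
  have hJ' : Tendsto E U (𝓝 J) := hJ
  have hlim : ∀ F : C(Tor × Tor, ℂ), Tendsto (fun j => (∑ a ∈ range (M j), ∑ b ∈ range (N j),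
      F (L1pt (x j) (y j) a b)) / ((M j : ℂ) * N j)) U (𝓝 (∫ p, F p ∂(J : Measure (Tor × Tor)))) := by
    intro F
    rw [ProbabilityMeasure.tendsto_iff_forall_integral_rclike_tendsto ℂ] at hJ'
    have h1 := hJ' (BoundedContinuousFunction.mkOfCompact F)
    refine (Tendsto.congr' ?_ h1)
    filter_upwards [hM1, hN1] with j h2 h3
    have h4 : (E j : Measure (Tor × Tor)) = L1E (M j) (N j) (x j) (y j) := by
      show ((E j : ProbabilityMeasure (Tor × Tor)) : Measure (Tor × Tor)) = _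
      simp only [E, dif_pos (And.intro h2 h3)]
      rfl
    rw [h4]
    exact L1E_integral _ _ _ _ F
  have hinv : ∀ s : ℕ, (∀ F : C(Tor × Tor, ℂ), Tendsto (fun j =>
      (∑ a ∈ range (M j), ∑ b ∈ range (N j), F (T2 s (L1pt (x j) (y j) a b))) / ((M j : ℂ) * N j) -
      (∑ a ∈ range (M j), ∑ b ∈ range (N j), F (L1pt (x j) (y j) a b)) / ((M j : ℂ) * N j))
      U (𝓝 0)) → MeasurePreserving (T2 s) (J : Measure (Tor × Tor)) J := by
    intro s hs
    refine ⟨(L1T2_cont s).measurable, ?_⟩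
    have : IsProbabilityMeasure ((J : Measure (Tor × Tor)).map (T2 s)) :=
      Measure.isProbabilityMeasure_map (L1T2_cont s).measurable.aemeasurable
    refine ext_of_forall_integral_eq_of_IsFiniteMeasure fun f => ?_
    rw [integral_map (L1T2_cont s).measurable.aemeasurable
      f.continuous.aestronglyMeasurable]
    let F : C(Tor × Tor, ℂ) := ⟨fun p => (f p : ℂ), by fun_prop⟩
    let G : C(Tor × Tor, ℂ) := ⟨fun p => (f (T2 s p) : ℂ), by
      have := L1T2_cont s
      fun_prop⟩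
    have h1 := hlim F
    have h2 := hlim G
    have h3 := h2.sub h1
    have h4 := tendsto_nhds_unique h3 (hs F)
    rw [sub_eq_zero] at h4
    have h5 : ∫ p, (G p : ℂ) ∂(J : Measure (Tor × Tor)) =
        ((∫ p, f (T2 s p) ∂(J : Measure (Tor × Tor)) : ℝ) : ℂ) := integral_ofReal
    have h6 : ∫ p, (F p : ℂ) ∂(J : Measure (Tor × Tor)) =
        ((∫ p, f p ∂(J : Measure (Tor × Tor)) : ℝ) : ℂ) := integral_ofReal
    rw [h5, h6] at h4
    exact_mod_cast h4
  have hb : ∀ F : C(Tor × Tor, ℂ), ∃ C : ℝ, 0 ≤ C ∧ ∀ p, ‖F p‖ ≤ C := fun F =>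
    ⟨‖F‖, norm_nonneg _, fun p => F.norm_coe_le_norm p⟩
  refine ⟨J, inferInstance, hlim, hinv 2 fun F => ?_, hinv 3 fun F => ?_⟩
  · obtain ⟨C, hC, hF⟩ := hb F
    refine squeeze_zero_norm' (a := fun j => 2 * C / M j) ?_ ?_
    · filter_upwards [hM1, hN1] with j h2 h3
      simp only [L1pt_two]
      exact L1tel (M j) (N j) (fun a b => F (L1pt (x j) (y j) a b)) C (fun a b => hF _) h2 h3
    · have h5 : Tendsto (fun j => ((M j : ℕ) : ℝ)) U atTop :=
        tendsto_natCast_atTop_atTop.comp hM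
      exact h5.const_div_atTop (2 * C)
  · obtain ⟨C, hC, hF⟩ := hb F
    refine squeeze_zero_norm' (a := fun j => 2 * C / N j) ?_ ?_
    · filter_upwards [hM1, hN1] with j h2 h3
      simp only [L1pt_three]
      have h4 := L1tel (N j) (M j) (fun b a => F (L1pt (x j) (y j) a b)) C (fun a b => hF _) h3 h2
      rw [sum_comm, sum_comm (s := range (N j)) (t := range (M j))
        (f := fun b a => F (L1pt (x j) (y j) a b)), mul_comm (N j : ℂ)] at h4
      exact h4
    · have h5 : Tendsto (fun j => ((N j : ℕ) : ℝ)) U atTop :=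
        tendsto_natCast_atTop_atTop.comp hN
      exact h5.const_div_atTop (2 * C)

end Helper75.LP
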