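import Mathlib
import Pool.Agent.Helper75.LP.Defs

/-!
# LP-L3: entropies of the two marginals of a measure with uniform differences

Proof.  Put `D = 2 ^ n`; for `x : Tor` let `c x = ⌊D * (AddCircle.equivIco 1 0 x)⌋₊ < D`.  As `μ₁` lives
on `[0, 1)` and maps to `J.map Prod.fst`, `pr μ₁ D a = J.real {p | c p.1 = a}`; similarly for `μ₂`, and
`J.real {p | c (p.2 - p.1) = u} = 1 / D` for `u < D` (`hd`; the Lebesgue measure of an arc of length
`1 / D`).  The representative of `p.2 - p.1` is congruent modulo `1` to the difference of the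
representatives, so `c (p.2 - p.1)` is congruent modulo `D` to `b - a` or `b - a - 1` if `c p.1 = a`,
`c p.2 = b`.  Let `P a b u` be the `J`-mass of `c p.1 = a`, `c p.2 = b`, `c (p.2 - p.1) = u`, so `P a b u = 0`
unless `u` is one of these two residues, and put `Q a b u = pr μ₁ D a * pr μ₂ D b / 2` for these `u`
(`0` otherwise), so `∑ Q ≤ 1`.  As `P a b u ≤ 1 / D` and by Gibbs' inequality
(`P log (Q / P) ≤ Q - P`):
`log D = ∑ P log D ≤ - ∑ P log P ≤ - ∑ P log Q = ent₁ + ent₂ + log 2`.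
-/

set_option autoImplicit false

open MeasureTheory Finset Filter Topology

namespace Helper75.LP

open Pool.Agent.Helper61.FR

/-- the two residues of `u` -/
def L3_R (D a b u : ℕ) : Prop := ((D : ℤ) ∣ (u + a - b : ℤ)) ∨ ((D : ℤ) ∣ (u + a + 1 - b : ℤ))

/-- at most two residues -/
theorem L3_card (D a b : ℕ) : open Classical in
    ((range D).filter fun u => L3_R D a b u).card ≤ 2 := by
  classical
  have key : ∀ c : ℤ, ((range D).filter fun u : ℕ => ((D : ℤ) ∣ (u - c : ℤ))).card ≤ 1 := by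
    intro c
    rw [Finset.card_le_one]
    intro u hu v hv
    rw [Finset.mem_filter, Finset.mem_range] at hu hv
    have h1 : (D : ℤ) ∣ (u - v : ℤ) := by
      have := dvd_sub hu.2 hv.2
      have e : ((u : ℤ) - c) - (v - c) = u - v := by ring
      rwa [e] at this
    by_contra hne
    have h2 : ((u : ℤ) - v) ≠ 0 := by
      intro h
      apply hne
      omega
    have h3 := Int.le_of_dvd (abs_pos.mpr h2) ((dvd_abs _ _).mpr h1)
    rcases abs_cases ((u : ℤ) - v) with h4 | h4 <;> omega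
  have hsub : ((range D).filter fun u => L3_R D a b u) ⊆
      ((range D).filter fun u : ℕ => ((D : ℤ) ∣ (u - (b - a : ℤ) : ℤ))) ∪
        ((range D).filter fun u : ℕ => ((D : ℤ) ∣ (u - (b - a - 1 : ℤ) : ℤ))) := by
    intro u hu
    rw [Finset.mem_filter] at hu
    rw [Finset.mem_union, Finset.mem_filter, Finset.mem_filter]
    rcases hu.2 with h | h
    · left
      refine ⟨hu.1, ?_⟩
      have e : (u : ℤ) - (b - a) = u + a - b := by ring
      rwa [e]
    · right
      refine ⟨hu.1, ?_⟩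
      have e : (u : ℤ) - (b - a - 1) = u + a + 1 - b := by ring
      rwa [e]
  calc _ ≤ _ := Finset.card_le_card hsub
    _ ≤ _ := Finset.card_union_le _ _
    _ ≤ 2 := by
      have h1 := key (b - a)
      have h2 := key (b - a - 1)
      omega

/-- Gibbs' inequality, one term -/
theorem L3_term {P α β D : ℝ} (hP : 0 < P) (hα : P ≤ α) (hβ : P ≤ β) (hD : 0 < D)
    (hle : P ≤ 1 / D) :
    P * Real.log D ≤ -(P * Real.log α) - P * Real.log β + P * Real.log 2 + (α * β / 2 - P) := by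
  have hα0 : 0 < α := lt_of_lt_of_le hP hα
  have hβ0 : 0 < β := lt_of_lt_of_le hP hβ
  have h1 : Real.log D ≤ -Real.log P := by
    have h2 : D ≤ P⁻¹ := by
      rw [le_inv_comm₀ hD hP, ← one_div]
      exact hle
    have h3 := Real.log_le_log hD h2
    rwa [Real.log_inv] at h3
  have hQ0 : 0 < α * β / 2 := by positivity
  have h2 : Real.log (α * β / 2 / P) ≤ α * β / 2 / P - 1 :=
    Real.log_le_sub_one_of_pos (by positivity)
  have h3 : Real.log (α * β / 2 / P) =
      Real.log α + Real.log β - Real.log 2 - Real.log P := by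
    rw [Real.log_div hQ0.ne' hP.ne', Real.log_div (by positivity) two_ne_zero,
      Real.log_mul hα0.ne' hβ0.ne']
  rw [h3] at h2
  have h4 : P * (Real.log α + Real.log β - Real.log 2 - Real.log P) ≤ α * β / 2 - P := by
    calc _ ≤ P * (α * β / 2 / P - 1) := mul_le_mul_of_nonneg_left h2 hP.le
      _ = α * β / 2 - P := by field_simp
  have h5 : P * Real.log D ≤ P * (-Real.log P) := mul_le_mul_of_nonneg_left h1 hP.le
  nlinarith [h4, h5]

/-- Gibbs' inequality for the triples -/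
theorem L3_gibbs (D : ℕ) (hD : 1 ≤ D) (P : ℕ → ℕ → ℕ → ℝ) (α β : ℕ → ℝ)
    (hP : ∀ a b u, 0 ≤ P a b u)
    (hα : ∀ a ∈ range D, ∑ b ∈ range D, ∑ u ∈ range D, P a b u = α a)
    (hβ : ∀ b ∈ range D, ∑ a ∈ range D, ∑ u ∈ range D, P a b u = β b)
    (hsum : ∑ a ∈ range D, α a = 1)
    (hle : ∀ a b u, u < D → P a b u ≤ 1 / D)
    (hR : ∀ a b u, P a b u ≠ 0 → L3_R D a b u) :
    Real.log D ≤ ∑ a ∈ range D, Real.negMulLog (α a) + ∑ b ∈ range D, Real.negMulLog (β b) +
      Real.log 2 := by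
  classical
  have hD0 : (0 : ℝ) < D := by exact_mod_cast hD
  have hα0 : ∀ a ∈ range D, 0 ≤ α a := by
    intro a ha
    rw [← hα a ha]
    exact sum_nonneg fun b _ => sum_nonneg fun u _ => hP a b u
  have hβ0 : ∀ b ∈ range D, 0 ≤ β b := by
    intro b hb
    rw [← hβ b hb]
    exact sum_nonneg fun a _ => sum_nonneg fun u _ => hP a b u
  have hPα : ∀ a ∈ range D, ∀ b ∈ range D, ∀ u ∈ range D, P a b u ≤ α a := by
    intro a ha b hb u hu
    rw [← hα a ha]
    calc P a b u ≤ ∑ u ∈ range D, P a b u :=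
          single_le_sum (f := fun u => P a b u) (fun u _ => hP a b u) hu
      _ ≤ _ := single_le_sum (f := fun b => ∑ u ∈ range D, P a b u)
          (fun b _ => sum_nonneg fun u _ => hP a b u) hb
  have hPβ : ∀ a ∈ range D, ∀ b ∈ range D, ∀ u ∈ range D, P a b u ≤ β b := by
    intro a ha b hb u hu
    rw [← hβ b hb]
    calc P a b u ≤ ∑ u ∈ range D, P a b u :=
          single_le_sum (f := fun u => P a b u) (fun u _ => hP a b u) hu
      _ ≤ _ := single_le_sum (f := fun a => ∑ u ∈ range D, P a b u)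
          (fun a _ => sum_nonneg fun u _ => hP a b u) ha
  have hsumβ : ∑ b ∈ range D, β b = 1 := by
    rw [← hsum]
    calc ∑ b ∈ range D, β b = ∑ b ∈ range D, ∑ a ∈ range D, ∑ u ∈ range D, P a b u :=
          sum_congr rfl fun b hb => (hβ b hb).symm
      _ = ∑ a ∈ range D, ∑ b ∈ range D, ∑ u ∈ range D, P a b u := sum_comm
      _ = ∑ a ∈ range D, α a := sum_congr rfl fun a ha => hα a ha
  have htot : ∑ a ∈ range D, ∑ b ∈ range D, ∑ u ∈ range D, P a b u = 1 := by
    rw [← hsum]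
    exact sum_congr rfl fun a ha => hα a ha
  -- the terms
  have hterm : ∀ a ∈ range D, ∀ b ∈ range D, ∀ u ∈ range D,
      P a b u * Real.log D ≤ -(P a b u * Real.log (α a)) - P a b u * Real.log (β b) +
        P a b u * Real.log 2 + ((if L3_R D a b u then α a * β b / 2 else 0) - P a b u) := by
    intro a ha b hb u hu
    rcases eq_or_lt_of_le (hP a b u) with h0 | h0
    · rw [← h0]
      have h1 : 0 ≤ (if L3_R D a b u then α a * β b / 2 else 0 : ℝ) := by
        split_ifs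
        · have := mul_nonneg (hα0 a ha) (hβ0 b hb)
          positivity
        · exact le_refl _
      simpa using h1
    · rw [if_pos (hR a b u h0.ne')]
      exact L3_term h0 (hPα a ha b hb u hu) (hPβ a ha b hb u hu) hD0
        (hle a b u (mem_range.mp hu))
  have hsum1 := sum_le_sum fun a ha => sum_le_sum fun b hb => sum_le_sum fun u hu =>
    hterm a ha b hb u hu
  simp only [sum_add_distrib, sum_sub_distrib, sum_neg_distrib] at hsum1
  have e0 : ∑ a ∈ range D, ∑ b ∈ range D, ∑ u ∈ range D, P a b u * Real.log D = Real.log D := by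
    simp only [← sum_mul]
    rw [htot, one_mul]
  have e1 : ∑ a ∈ range D, ∑ b ∈ range D, ∑ u ∈ range D, P a b u * Real.log (α a) =
      -∑ a ∈ range D, Real.negMulLog (α a) := by
    simp only [← sum_mul]
    rw [← sum_neg_distrib]
    refine sum_congr rfl fun a ha => ?_
    rw [hα a ha, Real.negMulLog]
    ring
  have e2 : ∑ a ∈ range D, ∑ b ∈ range D, ∑ u ∈ range D, P a b u * Real.log (β b) =
      -∑ b ∈ range D, Real.negMulLog (β b) := by
    rw [sum_comm]
    simp only [← sum_mul]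
    rw [← sum_neg_distrib]
    refine sum_congr rfl fun b hb => ?_
    rw [hβ b hb, Real.negMulLog]
    ring
  have e3 : ∑ a ∈ range D, ∑ b ∈ range D, ∑ u ∈ range D, P a b u * Real.log 2 = Real.log 2 := by
    simp only [← sum_mul]
    rw [htot, one_mul]
  have e4 : ∑ a ∈ range D, ∑ b ∈ range D, ∑ u ∈ range D,
      (if L3_R D a b u then α a * β b / 2 else 0) ≤ 1 := by
    calc _ ≤ ∑ a ∈ range D, ∑ b ∈ range D, α a * β b := by
          refine sum_le_sum fun a ha => sum_le_sum fun b hb => ?_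
          rw [← sum_filter, sum_const, nsmul_eq_mul]
          have h1 : ((((range D).filter fun u => L3_R D a b u).card : ℕ) : ℝ) ≤ 2 := by
            exact_mod_cast L3_card D a b
          have h2 := mul_nonneg (hα0 a ha) (hβ0 b hb)
          nlinarith
      _ = (∑ a ∈ range D, α a) * ∑ b ∈ range D, β b := by rw [sum_mul_sum]
      _ = 1 := by rw [hsum, hsumβ, one_mul]
  rw [e0, e1, e2, e3, htot] at hsum1
  linarith

/-- partition of a set by the values of a bounded function -/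
theorem L3_part {Ω : Type*} [MeasurableSpace Ω] (μ : Measure Ω) [IsFiniteMeasure μ] (f : Ω → ℕ)
    (hf : Measurable f) (D : ℕ) (hfD : ∀ x, f x < D) (S : Set Ω) (hS : MeasurableSet S) :
    ∑ b ∈ range D, μ.real (S ∩ f ⁻¹' {b}) = μ.real S := by
  rw [← measureReal_biUnion_finset]
  · congr 1
    ext x
    simp only [Set.mem_iUnion, mem_range, Set.mem_inter_iff, Set.mem_preimage,
      Set.mem_singleton_iff, exists_prop]
    constructor
    · rintro ⟨b, -, hx, -⟩
      exact hx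
    · intro hx
      exact ⟨f x, hfD x, hx, rfl⟩
  · intro b _ b' _ hbb
    refine Set.disjoint_left.2 fun x hx hx' => hbb ?_
    exact hx.2.symm.trans hx'.2
  · intro b _
    exact hS.inter (hf (measurableSet_singleton b))

/-- the index of the arc of length `1 / D` -/
noncomputable def L3_c (D : ℕ) (x : Tor) : ℕ := ⌊(D : ℝ) * (AddCircle.equivIco (1 : ℝ) 0 x : ℝ)⌋₊

theorem L3_rep (x : Tor) : 0 ≤ (AddCircle.equivIco (1 : ℝ) 0 x : ℝ) ∧
    (AddCircle.equivIco (1 : ℝ) 0 x : ℝ) < 1 := by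
  have h := (AddCircle.equivIco (1 : ℝ) 0 x).2
  exact ⟨h.1, by simpa using h.2⟩

theorem L3_c_lt (D : ℕ) (hD : 1 ≤ D) (x : Tor) : L3_c D x < D := by
  have hD0 : (0 : ℝ) < D := by exact_mod_cast hD
  obtain ⟨h1, h2⟩ := L3_rep x
  unfold L3_c
  rw [Nat.floor_lt (by positivity)]
  nlinarith

theorem L3_c_meas (D : ℕ) : Measurable (L3_c D) := by
  unfold L3_c
  refine Nat.measurable_floor.comp (measurable_const.mul ?_)
  exact measurable_subtype_coe.comp (AddCircle.measurableEquivIco (1 : ℝ) 0).measurable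

theorem L3_c_coe (D : ℕ) {x : ℝ} (hx : x ∈ Set.Ico (0 : ℝ) 1) :
    L3_c D (x : Tor) = ⌊(D : ℝ) * x⌋₊ := by
  unfold L3_c
  rw [AddCircle.equivIco_coe_of_mem (by simpa using hx)]

/-- the marginals -/
theorem L3_pr (J : Measure (Tor × Tor)) (μ : Measure ℝ) (g : Tor × Tor → Tor) (hg : Measurable g)
    (hs : ∀ᵐ x ∂μ, x ∈ Set.Ico (0 : ℝ) 1)
    (h : μ.map (fun x : ℝ => (x : Tor)) = J.map g) (D a : ℕ) :
    pr μ D a = J.real ((fun p => L3_c D (g p)) ⁻¹' {a}) := by
  have hm : MeasurableSet (L3_c D ⁻¹' {a}) := L3_c_meas D (measurableSet_singleton a)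
  have h1 : μ {x | ⌊(D : ℝ) * x⌋₊ = a} = μ ((fun x : ℝ => (x : Tor)) ⁻¹' (L3_c D ⁻¹' {a})) := by
    refine measure_congr ?_
    filter_upwards [hs] with x hx
    refine propext ?_
    show ⌊(D : ℝ) * x⌋₊ = a ↔ L3_c D (x : Tor) = a
    rw [L3_c_coe D hx]
  rw [pr, measureReal_def, h1, ← Measure.map_apply measurable_coe_circle hm, h,
    Measure.map_apply hg hm, measureReal_def]
  rfl

/-- the Lebesgue measure of an arc -/
theorem L3_arc (D u : ℕ) (hD : 1 ≤ D) : (volume : Measure Tor).real (L3_c D ⁻¹' {u}) ≤ 1 / D := by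
  have hD0 : (0 : ℝ) < D := by exact_mod_cast hD
  have hm : MeasurableSet (L3_c D ⁻¹' {u}) := L3_c_meas D (measurableSet_singleton u)
  have h1 := AddCircle.add_projection_respects_measure (T := (1 : ℝ)) 0 hm
  have h2 : (volume : Measure Tor) (L3_c D ⁻¹' {u}) ≤ ENNReal.ofReal (1 / D) := by
    rw [h1]
    have hsub : (QuotientAddGroup.mk ⁻¹' (L3_c D ⁻¹' {u}) ∩ (Set.Ioc (0 : ℝ) (0 + 1))) ⊆
        Set.Ico ((u : ℝ) / D) ((u + 1) / D) ∪ {1} := by
      rintro x ⟨hx, hx0, hx1⟩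
      rcases eq_or_lt_of_le hx1 with h | h
      · right
        simpa using h
      · left
        rw [zero_add] at h
        have hx' : L3_c D (x : Tor) = u := hx
        rw [L3_c_coe D ⟨hx0.le, h⟩] at hx'
        have h3 : (0 : ℝ) ≤ D * x := by positivity
        have h4 := Nat.floor_le h3
        have h5 := Nat.lt_floor_add_one ((D : ℝ) * x)
        rw [hx'] at h4 h5
        constructor
        · rw [div_le_iff₀ hD0]
          linarith
        · rw [lt_div_iff₀ hD0]
          linarith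
    calc _ ≤ volume (Set.Ico ((u : ℝ) / D) ((u + 1) / D) ∪ {1}) := measure_mono hsub
      _ ≤ volume (Set.Ico ((u : ℝ) / D) ((u + 1) / D)) + volume ({1} : Set ℝ) :=
          measure_union_le _ _
      _ = ENNReal.ofReal (1 / D) := by
          rw [Real.volume_Ico, Real.volume_singleton, add_zero]
          congr 1
          ring
  rw [measureReal_def]
  exact ENNReal.toReal_le_of_le_ofReal (by positivity) h2

/-- the residues of the difference -/
theorem L3_diff (D : ℕ) (hD : 1 ≤ D) (x y : Tor) :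
    L3_R D (L3_c D x) (L3_c D y) (L3_c D (y - x)) := by
  have hD0 : (0 : ℝ) < D := by exact_mod_cast hD
  obtain ⟨hx0, hx1⟩ := L3_rep x
  obtain ⟨hy0, hy1⟩ := L3_rep y
  obtain ⟨ξ, hξ⟩ : ∃ ξ : ℝ, ξ = (AddCircle.equivIco (1 : ℝ) 0 x : ℝ) := ⟨_, rfl⟩
  obtain ⟨ζ, hζ⟩ : ∃ ζ : ℝ, ζ = (AddCircle.equivIco (1 : ℝ) 0 y : ℝ) := ⟨_, rfl⟩
  have hxξ : (ξ : Tor) = x := by rw [hξ]; exact AddCircle.coe_equivIco
  have hyζ : (ζ : Tor) = y := by rw [hζ]; exact AddCircle.coe_equivIco
  rw [← hξ] at hx0 hx1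
  rw [← hζ] at hy0 hy1
  -- the representative of the difference
  obtain ⟨k, hk⟩ : ∃ k : ℤ, 0 ≤ ζ - ξ + k ∧ ζ - ξ + k < 1 := by
    refine ⟨-⌊ζ - ξ⌋, ?_, ?_⟩
    · have := Int.floor_le (ζ - ξ)
      push_cast
      linarith
    · have := Int.lt_floor_add_one (ζ - ξ)
      push_cast
      linarith
  have hdiff : ((ζ - ξ + k : ℝ) : Tor) = y - x := by
    rw [AddCircle.coe_add, AddCircle.coe_sub, hxξ, hyζ]
    have : ((k : ℝ) : Tor) = 0 := by
      rw [AddCircle.coe_eq_zero_iff]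
      exact ⟨k, by simp⟩
    rw [this, add_zero]
  have hc : L3_c D (y - x) = ⌊(D : ℝ) * (ζ - ξ + k)⌋₊ := by
    rw [← hdiff]
    exact L3_c_coe D ⟨hk.1, hk.2⟩
  have hcx : L3_c D x = ⌊(D : ℝ) * ξ⌋₊ := by
    rw [← hxξ]
    exact L3_c_coe D ⟨hx0, hx1⟩
  have hcy : L3_c D y = ⌊(D : ℝ) * ζ⌋₊ := by
    rw [← hyζ]
    exact L3_c_coe D ⟨hy0, hy1⟩
  have a1 := Nat.floor_le (mul_nonneg hD0.le hx0)
  have a2 := Nat.lt_floor_add_one ((D : ℝ) * ξ)
  have b1 := Nat.floor_le (mul_nonneg hD0.le hy0)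
  have b2 := Nat.lt_floor_add_one ((D : ℝ) * ζ)
  have u1 := Nat.floor_le (mul_nonneg hD0.le hk.1)
  have u2 := Nat.lt_floor_add_one ((D : ℝ) * (ζ - ξ + k))
  rw [← hcx] at a1 a2
  rw [← hcy] at b1 b2
  rw [← hc] at u1 u2
  generalize L3_c D x = a at *
  generalize L3_c D y = b at *
  generalize L3_c D (y - x) = u at *
  have h1 : ((u : ℤ) : ℝ) < ((b - a + 1 + D * k : ℤ) : ℝ) := by
    push_cast
    nlinarith
  have h2 : ((b - a - 2 + D * k : ℤ) : ℝ) < ((u : ℤ) : ℝ) := by
    push_cast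
    nlinarith
  rw [Int.cast_lt] at h1 h2
  have h3 : (u : ℤ) = b - a + D * k ∨ (u : ℤ) = b - a - 1 + D * k := by omega
  rcases h3 with h3 | h3
  · left
    exact ⟨k, by rw [h3]; ring⟩
  · right
    exact ⟨k, by rw [h3]; ring⟩

theorem ent_pair (J : Measure (Tor × Tor)) [IsProbabilityMeasure J] (μ₁ μ₂ : Measure ℝ)
    (hs₁ : ∀ᵐ x ∂μ₁, x ∈ Set.Ico (0 : ℝ) 1) (hs₂ : ∀ᵐ x ∂μ₂, x ∈ Set.Ico (0 : ℝ) 1)
    (h₁ : μ₁.map (fun x : ℝ => (x : Tor)) = J.map Prod.fst)
    (h₂ : μ₂.map (fun x : ℝ => (x : Tor)) = J.map Prod.snd)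
    (hd : J.map (fun p => p.2 - p.1) = volume) (n : ℕ) :
    ((n : ℝ) - 1) * Real.log 2 ≤ ent (pr μ₁) (2 ^ n) + ent (pr μ₂) (2 ^ n) := by
  classical
  obtain ⟨D, hDn⟩ : ∃ D : ℕ, D = 2 ^ n := ⟨_, rfl⟩
  have hD : 1 ≤ D := by rw [hDn]; exact Nat.one_le_two_pow
  have hsub : Measurable fun p : Tor × Tor => p.2 - p.1 := measurable_snd.sub measurable_fst
  have m1 : Measurable fun p : Tor × Tor => L3_c D p.1 := (L3_c_meas D).comp measurable_fst
  have m2 : Measurable fun p : Tor × Tor => L3_c D p.2 := (L3_c_meas D).comp measurable_snd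
  have m3 : Measurable fun p : Tor × Tor => L3_c D (p.2 - p.1) := (L3_c_meas D).comp hsub
  have s1 : ∀ a, MeasurableSet ((fun p : Tor × Tor => L3_c D p.1) ⁻¹' {a}) :=
    fun a => m1 (measurableSet_singleton a)
  have s2 : ∀ a, MeasurableSet ((fun p : Tor × Tor => L3_c D p.2) ⁻¹' {a}) :=
    fun a => m2 (measurableSet_singleton a)
  obtain ⟨P, hP⟩ : ∃ P : ℕ → ℕ → ℕ → ℝ, P = fun a b u =>
      J.real (((fun p : Tor × Tor => L3_c D p.1) ⁻¹' {a} ∩
        (fun p : Tor × Tor => L3_c D p.2) ⁻¹' {b}) ∩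
        (fun p : Tor × Tor => L3_c D (p.2 - p.1)) ⁻¹' {u}) := ⟨_, rfl⟩
  have key := L3_gibbs D hD P (pr μ₁ D) (pr μ₂ D) ?_ ?_ ?_ ?_ ?_ ?_
  · have h1 : Real.log (D : ℝ) = n * Real.log 2 := by
      rw [hDn]
      push_cast
      rw [Real.log_pow]
    rw [h1] at key
    unfold ent
    rw [← hDn]
    linarith
  · intro a b u
    rw [hP]
    exact measureReal_nonneg
  · intro a _
    rw [L3_pr J μ₁ Prod.fst measurable_fst hs₁ h₁, hP,
      ← L3_part J _ m2 D (fun p => L3_c_lt D hD _) _ (s1 a)]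
    refine sum_congr rfl fun b _ => ?_
    exact L3_part J _ m3 D (fun p => L3_c_lt D hD _) _ ((s1 a).inter (s2 b))
  · intro b _
    rw [L3_pr J μ₂ Prod.snd measurable_snd hs₂ h₂, hP,
      ← L3_part J _ m1 D (fun p => L3_c_lt D hD _) _ (s2 b)]
    refine sum_congr rfl fun a _ => ?_
    rw [Set.inter_comm ((fun p : Tor × Tor => L3_c D p.2) ⁻¹' {b})]
    exact L3_part J _ m3 D (fun p => L3_c_lt D hD _) _ ((s1 a).inter (s2 b))
  · have h1 := L3_part J _ m1 D (fun p => L3_c_lt D hD _) Set.univ MeasurableSet.univ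
    rw [probReal_univ] at h1
    rw [← h1]
    refine sum_congr rfl fun a _ => ?_
    rw [L3_pr J μ₁ Prod.fst measurable_fst hs₁ h₁, Set.univ_inter]
  · intro a b u _
    rw [hP]
    have h1 : J.real ((fun p : Tor × Tor => L3_c D (p.2 - p.1)) ⁻¹' {u}) =
        (volume : Measure Tor).real (L3_c D ⁻¹' {u}) := by
      rw [measureReal_def, measureReal_def, ← hd,
        Measure.map_apply hsub (L3_c_meas D (measurableSet_singleton u))]
      rfl
    calc _ ≤ J.real ((fun p : Tor × Tor => L3_c D (p.2 - p.1)) ⁻¹' {u}) :=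
          measureReal_mono Set.inter_subset_right
      _ ≤ 1 / D := by
          rw [h1]
          exact L3_arc D u hD
  · intro a b u h
    rw [hP] at h
    obtain ⟨p, ⟨⟨hp1, hp2⟩, hp3⟩⟩ : (((fun p : Tor × Tor => L3_c D p.1) ⁻¹' {a} ∩
        (fun p : Tor × Tor => L3_c D p.2) ⁻¹' {b}) ∩
        (fun p : Tor × Tor => L3_c D (p.2 - p.1)) ⁻¹' {u}).Nonempty := by
      by_contra hE
      rw [Set.not_nonempty_iff_eq_empty] at hE
      apply h
      simp only [hE, measureReal_empty]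
    have hp1' : L3_c D p.1 = a := hp1
    have hp2' : L3_c D p.2 = b := hp2
    have hp3' : L3_c D (p.2 - p.1) = u := hp3
    rw [← hp1', ← hp2', ← hp3']
    exact L3_diff D hD p.1 p.2

end Helper75.LP
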