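import Mathlib
import Pool.Agent.Helper61.FR.Core

/-!
# LP-L4: the entropy is at most the mass of the points without definite averages

Proof.  This is `step_le` and `exists_small_entropy` of `Pool.Agent.Helper61.FR.Core` with several
characters and `M = 1`.  Fix `n` large and put `D = 3 ^ (2 ^ n)`,
`S_m a = avg 1 (2 ^ n) (fun y => e (m * y)) (a / (D * 2 ^ n : ℕ))` and
`S a = √(∑ m ∈ F, ‖S_m a‖ ^ 2)` (a real number, as a complex number).  By `bessel` (with `M = 1`)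
`∑_{j < 2 ^ n} ‖S (c + D j)‖ ^ 2 ≤ R` with `R = ∑ m ∈ F, 8 m` or whatever `bessel` gives (independent of
`n`).  Let `B` be the set of the `a < D * 2 ^ n` with `‖S a‖ < κ / 2`; by `avg_close` for `n` large the
points of these cells satisfy `‖avg 1 (2 ^ n) (e (m ·)) x‖ ≤ κ` for all `m ∈ F`, so `B` has mass at most
`α` (`sum_pr`).  By `stage1` with `κ / 2` and `δ` so small that `4 δ R / κ ^ 2 ≤ ε / 4`:
`ent (D * 2 ^ n) - ent D ≤ (α + ε / 4) n log 2 + C`, `C` independent of `n`, so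
`≤ (α + ε / 2) n log 2` for one large `n`, which we fix.  Then `ent_chain`, `ent_mono`, `ent_le_log`:
for `n k' ≤ k < n (k' + 1)`,
`ent (2 ^ k) ≤ ent (D * 2 ^ (n (k' + 1))) ≤ log D + (k' + 1) (α + ε / 2) n log 2 ≤ (α + ε) k log 2` for `k` large.
(`0 ≤ α` by `hα`.)
-/

set_option autoImplicit false

open MeasureTheory Finset Filter Topology

namespace Helper75.LP

open Pool.Agent.Helper61.FR

theorem ent_le_phase {μ : Measure ℝ} (h : Inv23 μ) (F : Finset ℕ) (hF : ∀ m ∈ F, 1 ≤ m)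
    (κ α : ℝ) (hκ : 0 < κ)
    (hα : ∀ᶠ n : ℕ in atTop,
      μ.real {x | ∀ m ∈ F, ‖avg 1 (2 ^ n) (fun y => e (m * y)) x‖ ≤ κ} ≤ α)
    (ε : ℝ) (hε : 0 < ε) :
    ∀ᶠ k : ℕ in atTop, ent (pr μ) (2 ^ k) ≤ (α + ε) * k * Real.log 2 := by
  have := h.prob
  have hp := profile_pr h
  have hl2 : 0 < Real.log 2 := Real.log_pos (by norm_num)
  have hα0 : 0 ≤ α := by
    obtain ⟨n, hn⟩ := hα.exists
    exact le_trans measureReal_nonneg hn
  set N0 : ℕ := F.sup id with hN0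
  have hmN : ∀ m ∈ F, m ≤ N0 := fun m hm => Finset.le_sup (f := id) hm
  set R : ℝ := ∑ m ∈ F, 8 * (m : ℝ) with hR
  have hR0 : 0 ≤ R := sum_nonneg fun m _ => by positivity
  set δ : ℝ := min 1 (ε * (κ / 2) ^ 2 / (4 * (R + 1))) with hδ
  have hδ0 : 0 < δ := lt_min one_pos (by positivity)
  have hδ1 : δ ≤ 1 := min_le_left _ _
  have hδR : δ * R / (κ / 2) ^ 2 ≤ ε / 4 := by
    have h1 : δ ≤ ε * (κ / 2) ^ 2 / (4 * (R + 1)) := min_le_right _ _
    have hk : 0 < (κ / 2) ^ 2 := by positivity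
    rw [div_le_iff₀ hk]
    calc δ * R ≤ ε * (κ / 2) ^ 2 / (4 * (R + 1)) * R := mul_le_mul_of_nonneg_right h1 hR0
      _ = ε / 4 * (κ / 2) ^ 2 * (R / (R + 1)) := by
        field_simp
      _ ≤ ε / 4 * (κ / 2) ^ 2 * 1 := by
        refine mul_le_mul_of_nonneg_left ?_ (by positivity)
        rw [div_le_one (by linarith)]
        linarith
      _ = ε / 4 * (κ / 2) ^ 2 := mul_one _
  -- choose `n`
  have hlog : Tendsto (fun n : ℕ => (n : ℝ) * Real.log 2 * (ε / 4)) atTop atTop :=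
    (tendsto_natCast_atTop_atTop.atTop_mul_const hl2).atTop_mul_const (by positivity)
  have hpow : Tendsto (fun n : ℕ => (2 : ℝ) ^ n) atTop atTop :=
    tendsto_pow_atTop_atTop_of_one_lt (by norm_num)
  obtain ⟨n, hn1, hn2, hn3, hn4, hn5⟩ := ((eventually_ge_atTop 1).and
    ((hlog.eventually_ge_atTop (Real.log (1 / δ) + 1)).and
    ((hpow.eventually_ge_atTop (16 * (N0 : ℝ))).and
    ((hpow.eventually_ge_atTop (8 * Real.pi * N0 / κ)).and hα)))).exists
  have h2n0 : (0 : ℝ) < 2 ^ n := by positivity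
  set D : ℕ := 3 ^ (2 ^ n) with hD
  have hD1 : 1 ≤ D := Nat.one_le_pow _ _ (by norm_num)
  set Sm : ℕ → ℕ → ℂ := fun m a =>
    avg 1 (2 ^ n) (fun y => e (m * y)) ((a : ℝ) / (D * 2 ^ n : ℕ)) with hSm
  set S : ℕ → ℂ := fun a => ((Real.sqrt (∑ m ∈ F, ‖Sm m a‖ ^ 2) : ℝ) : ℂ) with hS
  have hSn : ∀ a, ‖S a‖ = Real.sqrt (∑ m ∈ F, ‖Sm m a‖ ^ 2) := by
    intro a
    simp only [hS]
    rw [Complex.norm_real, Real.norm_of_nonneg (Real.sqrt_nonneg _)]
  have hSn2 : ∀ a, ‖S a‖ ^ 2 = ∑ m ∈ F, ‖Sm m a‖ ^ 2 := by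
    intro a
    rw [hSn, Real.sq_sqrt (sum_nonneg fun m _ => by positivity)]
  set B : Finset ℕ := (range (D * 2 ^ n)).filter fun a => ‖S a‖ < κ / 2 with hB
  have hstep := stage1 hp D n hD1 S B R (κ / 2) α δ hR0 (by positivity) hδ0 hδ1 ?_ ?_ ?_
  · -- the conclusion
    have hstep' : ent (pr μ) (D * 2 ^ n) - ent (pr μ) D ≤ (α + ε / 2) * (n * Real.log 2) := by
      have h1 : (α + δ * R / (κ / 2) ^ 2) * (n * Real.log 2) ≤
          (α + ε / 4) * (n * Real.log 2) := by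
        refine mul_le_mul_of_nonneg_right (by linarith) (by positivity)
      nlinarith
    have hend : Tendsto (fun k : ℕ => (k : ℝ) * (ε / 2 * Real.log 2)) atTop atTop :=
      tendsto_natCast_atTop_atTop.atTop_mul_const (by positivity)
    filter_upwards [hend.eventually_ge_atTop (Real.log D + n * ((α + ε / 2) * Real.log 2))]
      with k hk
    set k' : ℕ := k / n with hk'
    have hk1 : k' * n ≤ k := Nat.div_mul_le_self k n
    have hk2 : k ≤ (k' + 1) * n := by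
      have := Nat.lt_div_mul_add (a := k) (b := n) (by omega)
      rw [add_mul, one_mul, hk']
      omega
    have h7 := ent_chain hp D n (k' + 1) hD1
    have h8 := ent_mono hp (2 ^ k) (D * 2 ^ ((k' + 1) * n - k)) Nat.one_le_two_pow
      (Nat.mul_pos hD1 (by positivity))
    have h9 := ent_le_log hp D hD1
    have e0 : 2 ^ k * (D * 2 ^ ((k' + 1) * n - k)) = D * 2 ^ ((k' + 1) * n) := by
      have : 2 ^ ((k' + 1) * n) = 2 ^ k * 2 ^ ((k' + 1) * n - k) := by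
        rw [← pow_add, Nat.add_sub_cancel' hk2]
      rw [this]; ring
    rw [e0] at h8
    have h10 : ((k' + 1 : ℕ) : ℝ) * (ent (pr μ) (D * 2 ^ n) - ent (pr μ) D) ≤
        ((k' + 1 : ℕ) : ℝ) * ((α + ε / 2) * (n * Real.log 2)) :=
      mul_le_mul_of_nonneg_left hstep' (Nat.cast_nonneg _)
    have h11 : ((k' + 1 : ℕ) : ℝ) * n ≤ k + n := by
      have : ((k' * n : ℕ) : ℝ) ≤ k := by exact_mod_cast hk1
      push_cast at this ⊢
      nlinarith
    have h12 : ((k' + 1 : ℕ) : ℝ) * ((α + ε / 2) * (n * Real.log 2)) ≤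
        (k + n) * ((α + ε / 2) * Real.log 2) := by
      calc ((k' + 1 : ℕ) : ℝ) * ((α + ε / 2) * (n * Real.log 2))
          = (((k' + 1 : ℕ) : ℝ) * n) * ((α + ε / 2) * Real.log 2) := by ring
        _ ≤ _ := mul_le_mul_of_nonneg_right h11 (by positivity)
    calc ent (pr μ) (2 ^ k) ≤ ent (pr μ) (D * 2 ^ ((k' + 1) * n)) := h8
      _ ≤ ent (pr μ) D + ((k' + 1 : ℕ) : ℝ) * (ent (pr μ) (D * 2 ^ n) - ent (pr μ) D) := h7
      _ ≤ Real.log D + (k + n) * ((α + ε / 2) * Real.log 2) := by linarith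
      _ = Real.log D + n * ((α + ε / 2) * Real.log 2) + k * ((α + ε / 2) * Real.log 2) := by ring
      _ ≤ k * (ε / 2 * Real.log 2) + k * ((α + ε / 2) * Real.log 2) := by linarith
      _ = (α + ε) * k * Real.log 2 := by ring
  · intro c _
    have e1 : ∑ j ∈ range (2 ^ n), ‖S (c + D * j)‖ ^ 2 =
        ∑ m ∈ F, ∑ j ∈ range (2 ^ n), ‖Sm m (c + D * j)‖ ^ 2 := by
      rw [sum_comm]
      exact sum_congr rfl fun j _ => hSn2 _
    rw [e1, hR]
    refine sum_le_sum fun m hm => ?_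
    have h16 : m * 2 ^ (1 + 3) ≤ 2 ^ n := by
      have h1 : (m : ℝ) ≤ N0 := by exact_mod_cast hmN m hm
      have : (m * 2 ^ (1 + 3) : ℝ) ≤ 2 ^ n := by
        norm_num
        linarith
      exact_mod_cast this
    have hb := bessel m n 1 (hF m hm) le_rfl h16 ((c : ℝ) / (D * 2 ^ n : ℕ))
    have e2 : (4 * m * 2 ^ 1 : ℝ) = 8 * m := by ring
    rw [e2] at hb
    refine le_trans (le_of_eq (sum_congr rfl fun j _ => ?_)) hb
    congr 2
    simp only [hSm]
    congr 1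
    have hDr : (D : ℝ) ≠ 0 := by positivity
    push_cast
    field_simp
  · rw [sum_pr]
    refine le_trans (ENNReal.toReal_mono (measure_ne_top μ _) (measure_mono_ae ?_)) hn5
    filter_upwards [h.supp] with x hx hxB
    intro m hm
    simp only [hB, mem_filter, mem_range] at hxB
    have hx0 : 0 ≤ x := hx.1
    have hcl' := avg_close m n 1 le_rfl x hx0
    have e1 : avg 1 (2 ^ n) (fun y => e (m * y))
        ((⌊((3 ^ (2 ^ n) * 2 ^ n : ℕ) : ℝ) * x⌋₊ : ℝ) / (3 ^ (2 ^ n) * 2 ^ n : ℕ)) =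
        Sm m ⌊((D * 2 ^ n : ℕ) : ℝ) * x⌋₊ := rfl
    rw [e1] at hcl'
    have h3 : ‖Sm m ⌊((D * 2 ^ n : ℕ) : ℝ) * x⌋₊‖ ≤ ‖S ⌊((D * 2 ^ n : ℕ) : ℝ) * x⌋₊‖ := by
      rw [hSn]
      refine Real.le_sqrt_of_sq_le ?_
      exact single_le_sum (f := fun m => ‖Sm m ⌊((D * 2 ^ n : ℕ) : ℝ) * x⌋₊‖ ^ 2)
        (fun i _ => by positivity) hm
    have h4 := norm_sub_norm_le (avg 1 (2 ^ n) (fun y => e (m * y)) x)
        (Sm m ⌊((D * 2 ^ n : ℕ) : ℝ) * x⌋₊)
    have h5 : 2 * Real.pi * m * 2 ^ 1 / 2 ^ n ≤ κ / 2 := by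
      rw [div_le_iff₀ h2n0]
      have h6 : (m : ℝ) ≤ N0 := by exact_mod_cast hmN m hm
      have h7 : 8 * Real.pi * N0 ≤ 2 ^ n * κ := by
        rw [div_le_iff₀ hκ] at hn4
        exact hn4
      have h8 : Real.pi * m ≤ Real.pi * N0 := mul_le_mul_of_nonneg_left h6 Real.pi_pos.le
      nlinarith
    have h6 := hxB.2
    linarith [hcl'.trans h5]
  · intro a ha haB
    simp only [hB, mem_filter, mem_range, not_and, not_lt] at haB
    exact haB ha

end Helper75.LP
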