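import Mathlib
import Pool.Agent.Helper75.LP.Defs
import Pool.Agent.Helper75.DF.Defs

/-!
# LP-L2: finite measures with vanishing Fourier coefficients; averages of differences

* `eq_smul_volume`: a finite measure on the circle all of whose Fourier coefficients of frequency
  `m ≠ 0` vanish is a multiple of Lebesgue measure (if its mass is not `0` normalise and use
  `Helper17.TranslM.eq_of_fourier`; `Helper17.TranslM.integral_fourier_vol` for `volume`).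
* `diff_small`: put `h = 2 ^ v h'`, `h'` odd.  For `a < M q` and `k ≥ M q + r` the inner sum over `b` of
  `e (h' d 3 ^ b / 2 ^ (k - a - v))`, `4 ≤ k - a - v ≤ W q`, is at most `(η / 2) 2 ^ q` by `Window W`
  (if `r ≥ v + 4`, `q ≥ r` large), and the error from `τ` is
  `|h 2 ^ a 3 ^ b τ| ≤ |h| 2 ^ (a - k) ≤ |h| 2 ^ (- r)`, so at most `2 π |h| 2 ^ (- r) ≤ η / 2`
  (`norm_e_sub_le`).
-/

set_option autoImplicit false

open MeasureTheory Finset Filter Topology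

namespace Helper75.LP

open Pool.Agent.Helper61.FR Helper75.DF

theorem eq_smul_volume (κ : Measure Tor) [IsFiniteMeasure κ]
    (h : ∀ m : ℤ, m ≠ 0 → ∫ x, (fourier m x : ℂ) ∂κ = 0) : κ = κ Set.univ • volume := by
  have hfin : IsFiniteMeasure (κ Set.univ • (volume : Measure Tor)) :=
    Measure.smul_finite _ (measure_ne_top _ _)
  refine Helper17.TranslM.eq_of_fourier (ρ := κ) (σ := κ Set.univ • (volume : Measure Tor)) ?_
  intro m
  rw [integral_smul_measure]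
  by_cases hm : m = 0
  · subst hm
    have h1 : (volume : Measure Tor).real Set.univ = 1 := by
      rw [measureReal_def]
      have h2 := (Helper17.TranslM.instProb).measure_univ
      have h3 : (volume : Measure Tor) Set.univ = 1 := h2
      rw [h3]; simp
    simp [measureReal_def]
  · have h2 := Helper17.TranslM.integral_fourier_vol hm
    have h3 : ∫ x, (fourier m x : ℂ) ∂(volume : Measure Tor) = 0 := h2
    rw [h m hm, h3, smul_zero]

private lemma LP2_norm_e (x : ℝ) : ‖e x‖ = 1 := by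
  unfold e
  rw [show (2 * Real.pi * x * Complex.I : ℂ) = ((2 * Real.pi * x : ℝ) : ℂ) * Complex.I by
    push_cast; ring]
  exact Complex.norm_exp_ofReal_mul_I _

theorem diff_small (M W : ℕ → ℕ) (hW : Window W) (h : ℤ) (hh : h ≠ 0) (η : ℝ) (hη : 0 < η) :
    ∃ r : ℕ, ∀ q, r ≤ q → ∀ k, M q + r ≤ k → k ≤ W q → ∀ d : ℤ, Odd d → ∀ τ : ℝ,
      |τ| * 3 ^ (2 ^ q) * 2 ^ k ≤ 1 →
        ‖(∑ a ∈ range (M q), ∑ b ∈ range (2 ^ q),
          e (h * (2 ^ a * 3 ^ b * (d / 2 ^ k + τ)))) / ((M q : ℂ) * (2 ^ q : ℕ))‖ ≤ η := by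
  obtain ⟨v, h', hodd, hv⟩ : ∃ (v : ℕ) (h' : ℤ), Odd h' ∧ h = 2 ^ v * h' := by
    have h1 : h.natAbs ≠ 0 := Int.natAbs_ne_zero.2 hh
    obtain ⟨v, n, hn, hvn⟩ := Nat.exists_eq_two_pow_mul_odd h1
    rcases Int.natAbs_eq h with h2 | h2
    · refine ⟨v, n, by exact_mod_cast hn, ?_⟩
      rw [h2, hvn]; push_cast; ring
    · refine ⟨v, -n, by
        have : Odd (n : ℤ) := by exact_mod_cast hn
        exact this.neg, ?_⟩
      rw [h2, hvn]; push_cast; ring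
  obtain ⟨q₀, hq₀⟩ := hW (η / 2) (half_pos hη)
  obtain ⟨r₁, hr₁⟩ : ∃ r₁ : ℕ, 2 * Real.pi * |(h : ℝ)| / 2 ^ r₁ ≤ η / 2 := by
    obtain ⟨n, hn⟩ := pow_unbounded_of_one_lt (2 * Real.pi * |(h : ℝ)| / (η / 2))
      (one_lt_two : (1 : ℝ) < 2)
    refine ⟨n, ?_⟩
    rw [div_lt_iff₀ (half_pos hη)] at hn
    rw [div_le_iff₀ (by positivity)]
    linarith
  refine ⟨max (v + 4) (max q₀ r₁), ?_⟩
  intro q hq k hk hkW d hd τ hτ
  have hr0 : v + 4 ≤ max (v + 4) (max q₀ r₁) := le_max_left _ _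
  have hr1 : q₀ ≤ max (v + 4) (max q₀ r₁) := (le_max_left _ _).trans (le_max_right _ _)
  have hr2 : r₁ ≤ max (v + 4) (max q₀ r₁) := (le_max_right _ _).trans (le_max_right _ _)
  set r := max (v + 4) (max q₀ r₁) with hr
  have hin : ∀ a ∈ range (M q), ‖∑ b ∈ range (2 ^ q),
      e (h * (2 ^ a * 3 ^ b * (d / 2 ^ k + τ)))‖ ≤ η * 2 ^ q := by
    intro a ha
    have haM := mem_range.1 ha
    have hk' : 4 ≤ k - a - v := by omega
    have h1 := hq₀ q (hr1.trans hq) (k - a - v) hk' (by omega) (h' * d) (hodd.mul hd)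
    have hkav : k = (k - a - v) + a + v := by omega
    have hx : ∀ b : ℕ, ((h' * d : ℤ) : ℝ) * 3 ^ b / 2 ^ (k - a - v) =
        h * (2 ^ a * 3 ^ b * (d / 2 ^ k)) := by
      intro b
      have h3 : (2 : ℝ) ^ k = 2 ^ (k - a - v) * 2 ^ a * 2 ^ v := by
        rw [← pow_add, ← pow_add, ← hkav]
      rw [h3, hv]
      push_cast
      field_simp
    have h2 : ∀ b ∈ range (2 ^ q), ‖e (h * (2 ^ a * 3 ^ b * (d / 2 ^ k + τ))) -
        e (((h' * d : ℤ) : ℝ) * 3 ^ b / 2 ^ (k - a - v))‖ ≤ η / 2 := by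
      intro b hb
      have hb' := mem_range.1 hb
      refine (norm_e_sub_le _ _).trans (le_trans ?_ hr₁)
      rw [hx b]
      have h4 : (h : ℝ) * (2 ^ a * 3 ^ b * (d / 2 ^ k + τ)) - h * (2 ^ a * 3 ^ b * (d / 2 ^ k)) =
          h * (2 ^ a * 3 ^ b * τ) := by ring
      rw [h4, abs_mul, abs_mul, abs_of_nonneg (by positivity : (0 : ℝ) ≤ 2 ^ a * 3 ^ b)]
      have h5 : (2 : ℝ) ^ a * 3 ^ b * |τ| ≤ 1 / 2 ^ r₁ := by
        have h6 : (2 : ℝ) ^ a * 2 ^ r₁ ≤ 2 ^ k := by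
          rw [← pow_add]
          exact pow_le_pow_right₀ (by norm_num) (by omega)
        have h7 : (3 : ℝ) ^ b ≤ 3 ^ (2 ^ q) := pow_le_pow_right₀ (by norm_num) hb'.le
        rw [le_div_iff₀ (by positivity)]
        calc (2 : ℝ) ^ a * 3 ^ b * |τ| * 2 ^ r₁ = (2 ^ a * 2 ^ r₁) * 3 ^ b * |τ| := by ring
          _ ≤ 2 ^ k * 3 ^ (2 ^ q) * |τ| := by gcongr
          _ = |τ| * 3 ^ (2 ^ q) * 2 ^ k := by ring
          _ ≤ 1 := hτ
      calc 2 * Real.pi * (|(h : ℝ)| * (2 ^ a * 3 ^ b * |τ|)) ≤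
          2 * Real.pi * (|(h : ℝ)| * (1 / 2 ^ r₁)) := by gcongr
        _ = 2 * Real.pi * |(h : ℝ)| / 2 ^ r₁ := by ring
    have h3 : ‖∑ b ∈ range (2 ^ q), (e (h * (2 ^ a * 3 ^ b * (d / 2 ^ k + τ))) -
        e (((h' * d : ℤ) : ℝ) * 3 ^ b / 2 ^ (k - a - v)))‖ ≤ (2 ^ q : ℕ) * (η / 2) := by
      refine (norm_sum_le_of_le _ h2).trans ?_
      rw [sum_const, card_range, nsmul_eq_mul]
    rw [sum_sub_distrib] at h3
    have h4 : ∑ b ∈ range (2 ^ q), e (h * (2 ^ a * 3 ^ b * (d / 2 ^ k + τ))) =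
        (∑ b ∈ range (2 ^ q), e (h * (2 ^ a * 3 ^ b * (d / 2 ^ k + τ))) -
          ∑ b ∈ range (2 ^ q), e (((h' * d : ℤ) : ℝ) * 3 ^ b / 2 ^ (k - a - v))) +
        ∑ b ∈ range (2 ^ q), e (((h' * d : ℤ) : ℝ) * 3 ^ b / 2 ^ (k - a - v)) := by ring
    rw [h4]
    refine (norm_add_le _ _).trans ?_
    have h5 := add_le_add h3 h1
    refine h5.trans (le_of_eq ?_)
    push_cast
    ring
  have hsum : ‖∑ a ∈ range (M q), ∑ b ∈ range (2 ^ q),
      e (h * (2 ^ a * 3 ^ b * (d / 2 ^ k + τ)))‖ ≤ M q * (η * 2 ^ q) := by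
    refine (norm_sum_le_of_le _ hin).trans ?_
    rw [sum_const, card_range, nsmul_eq_mul]
  rw [norm_div, norm_mul, Complex.norm_natCast, Complex.norm_natCast]
  rcases Nat.eq_zero_or_pos (M q) with h0 | h0
  · rw [h0]; simp [hη.le]
  · have h1 : (0 : ℝ) < M q := by exact_mod_cast h0
    rw [div_le_iff₀ (by positivity)]
    refine hsum.trans (le_of_eq ?_)
    push_cast
    ring

end Helper75.LP
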