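import Mathlib
import Pool.Agent.Helper75.LP.St.L2

/-!
# LP-L5: the Lebesgue part of an invariant measure

Proof.  Let `V` be the Koopman operator of `x ↦ fract (3 x)` on `L²(μ)` (complex; `h.three`), `P` the
orthogonal projection onto the vectors fixed by `V`.  By the mean ergodic theorem
(`ContinuousLinearMap.tendsto_birkhoffAverage_orthogonalProjection`) the averages
`avg 1 N (e (m ·))` converge in `L²(μ)`, hence in measure, to `g m = P (e (m ·))` (`e (m * 3 ^ k * x)` is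
almost everywhere the `k`-th iterate of `V` applied to `e (m ·)`).  Let `Lam` be the set of `x` with
`g m x = 0` for all `m ≥ 1`; `g m` is invariant almost everywhere, so `Lam` is invariant up to a null
set and its indicator is fixed by `V`.
`μ Lam ≥ 1 / 2`: for finite `F` (with elements `≥ 1`), `κ > 0`, `δ > 0`
`μ {x | ∀ m ∈ F, ‖g m x‖ ≤ 2 κ} ≥ 1 / 2 - 2 δ` by `hp` and convergence in measure; let `δ → 0`, then
`F = {1, ..., K}`, `κ = 1 / K`, `K → ∞` (decreasing sets).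
For `m ≥ 1`: `∫_{Lam} e (m x) dμ = ⟪1_Lam, e (m ·)⟫ = ⟪1_Lam, g m⟫ = 0`; for `m ≤ -1` conjugate.  So the
image `κ` on the circle of the restriction of `μ` to `Lam` satisfies `κ = κ univ • volume` by
`eq_smul_volume`, `κ univ = μ Lam ≥ 1 / 2`, and `κ ≤ μ.map coe`.
-/

set_option autoImplicit false

open MeasureTheory Finset Filter Topology

namespace Helper75.LP

open Pool.Agent.Helper61.FR

section

variable {μ : Measure ℝ}

theorem memLp_e [IsFiniteMeasure μ] (n : ℕ) : MemLp (fun x : ℝ => e (n * x)) 2 μ :=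
  MemLp.of_bound (continuous_e.comp (by fun_prop)).aestronglyMeasurable 1
    (Eventually.of_forall fun x => (norm_e _).le)

theorem e_mul_fract (n : ℕ) (y : ℝ) : e (n * Int.fract y) = e (n * y) := by
  have h3 : (n : ℝ) * y = n * Int.fract y + ((n * ⌊y⌋ : ℤ) : ℝ) := by
    have h4 := (Int.fract_add_floor y).symm
    push_cast
    nth_rewrite 1 [h4]
    ring
  rw [h3, e_add, e_int, mul_one]

/-- the character of frequency `n` -/
noncomputable def chr (μ : Measure ℝ) [IsFiniteMeasure μ] (n : ℕ) : Lp ℂ 2 μ := (memLp_e n).toLp _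

theorem coeFn_chr [IsFiniteMeasure μ] (n : ℕ) : chr μ n =ᵐ[μ] fun x => e (n * x) :=
  MemLp.coeFn_toLp _

/-- the Koopman operator of `x ↦ fract (3 x)` -/
noncomputable def koop (h : Inv23 μ) : Lp ℂ 2 μ →L[ℂ] Lp ℂ 2 μ :=
  (Lp.compMeasurePreservingₗᵢ ℂ _ h.three).toContinuousLinearMap

theorem coeFn_koop (h : Inv23 μ) (f : Lp ℂ 2 μ) :
    koop h f =ᵐ[μ] fun x => f (Int.fract (3 * x)) :=
  Lp.coeFn_compMeasurePreserving f h.three

theorem norm_koop (h : Inv23 μ) : ‖koop h‖ ≤ 1 := LinearIsometry.norm_toContinuousLinearMap_le _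

theorem koop_chr [IsFiniteMeasure μ] (h : Inv23 μ) (n : ℕ) : koop h (chr μ n) = chr μ (n * 3) := by
  refine Lp.ext ?_
  have h1 := h.three.quasiMeasurePreserving.ae (coeFn_chr (μ := μ) n)
  filter_upwards [coeFn_koop h (chr μ n), coeFn_chr (μ := μ) (n * 3), h1] with x h2 h3 h4
  rw [h2, h3, h4, e_mul_fract]
  congr 1
  push_cast
  ring

theorem koop_iter [IsFiniteMeasure μ] (h : Inv23 μ) (n k : ℕ) :
    (koop h)^[k] (chr μ n) = chr μ (n * 3 ^ k) := by
  induction k with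
  | zero => simp
  | succ k ih =>
    rw [Function.iterate_succ_apply', ih, koop_chr]
    congr 1
    ring

theorem birk_ae [IsFiniteMeasure μ] (h : Inv23 μ) (m N : ℕ) :
    (birkhoffAverage ℂ (koop h) (_root_.id : Lp ℂ 2 μ → Lp ℂ 2 μ) N (chr μ m) : Lp ℂ 2 μ)
      =ᵐ[μ] avg 1 N (fun y => e (m * y)) := by
  have h1 : birkhoffAverage ℂ (koop h) (_root_.id : Lp ℂ 2 μ → Lp ℂ 2 μ) N (chr μ m) =
      ((N : ℂ)⁻¹) • ∑ k ∈ range N, chr μ (m * 3 ^ k) := by
    unfold birkhoffAverage birkhoffSum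
    congr 1
    refine sum_congr rfl fun k _ => ?_
    rw [koop_iter]
    rfl
  rw [h1]
  have h2 : ∀ᵐ x ∂μ, ∀ k : ℕ, chr μ (m * 3 ^ k) x = e ((m * 3 ^ k : ℕ) * x) :=
    ae_all_iff.2 fun k => coeFn_chr _
  have h3 : ((∑ k ∈ range N, chr μ (m * 3 ^ k) : Lp ℂ 2 μ) : ℝ → ℂ) =ᵐ[μ]
      fun x => ∑ k ∈ range N, chr μ (m * 3 ^ k) x := by
    refine (Lp.coeFn_finsetSum (range N) _).trans ?_
    exact Eventually.of_forall fun x => by simp
  filter_upwards [Lp.coeFn_smul ((N : ℂ)⁻¹) (∑ k ∈ range N, chr μ (m * 3 ^ k) : Lp ℂ 2 μ), h2, h3]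
    with x h4 h5 h6
  rw [h4, Pi.smul_apply, h6]
  unfold avg
  rw [sum_congr rfl fun k _ => h5 k]
  simp only [range_one, sum_singleton, pow_zero, one_mul, Nat.cast_one, smul_eq_mul]
  rw [mul_comm, div_eq_mul_inv]
  congr 1
  refine sum_congr rfl fun k _ => ?_
  congr 1
  push_cast
  ring

/-- the limit of the averages -/
noncomputable def lim (h : Inv23 μ) [IsFiniteMeasure μ] (m : ℕ) : Lp ℂ 2 μ :=
  ((koop h).eqLocus (1 : Lp ℂ 2 μ →L[ℂ] Lp ℂ 2 μ)).orthogonalProjectionOnto (chr μ m)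


theorem tendsto_lim (h : Inv23 μ) [IsFiniteMeasure μ] (m : ℕ) :
    TendstoInMeasure μ (fun N => avg 1 N (fun y => e (m * y))) atTop (lim h m) := by
  have h1 := (koop h).tendsto_birkhoffAverage_orthogonalProjection (norm_koop h) (chr μ m)
  exact (tendstoInMeasure_of_tendsto_Lp h1).congr_left fun N => birk_ae h m N

theorem koop_lim (h : Inv23 μ) [IsFiniteMeasure μ] (m : ℕ) : koop h (lim h m) = lim h m := by
  have := (((koop h).eqLocus (1 : Lp ℂ 2 μ →L[ℂ] Lp ℂ 2 μ)).orthogonalProjectionOnto (chr μ m)).2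
  exact this

theorem inner_lim (h : Inv23 μ) [IsFiniteMeasure μ] (m : ℕ) (f : Lp ℂ 2 μ) (hf : koop h f = f) :
    inner ℂ f (chr μ m) = inner ℂ f (lim h m) := by
  have h1 : f ∈ (koop h).eqLocus (1 : Lp ℂ 2 μ →L[ℂ] Lp ℂ 2 μ) := hf
  have h2 := Submodule.inner_orthogonalProjectionOnto_eq_of_mem_left
    (K := (koop h).eqLocus (1 : Lp ℂ 2 μ →L[ℂ] Lp ℂ 2 μ)) ⟨f, h1⟩ (chr μ m)
  exact h2.symm

/-- the points where all limits vanish -/
def Lam (h : Inv23 μ) [IsFiniteMeasure μ] : Set ℝ := {x | ∀ m : ℕ, 1 ≤ m → lim h m x = 0}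

theorem measurableSet_Lam (h : Inv23 μ) [IsFiniteMeasure μ] : MeasurableSet (Lam h) := by
  unfold Lam
  simp only [Set.ofPred_forall]
  refine MeasurableSet.iInter fun m => MeasurableSet.iInter fun _ => ?_
  exact (Lp.stronglyMeasurable (lim h m)).measurable (measurableSet_singleton 0)

theorem lam_invariant (h : Inv23 μ) [IsFiniteMeasure μ] :
    ∀ᵐ x ∂μ, (Int.fract (3 * x) ∈ Lam h ↔ x ∈ Lam h) := by
  have h1 : ∀ᵐ x ∂μ, ∀ m : ℕ, lim h m (Int.fract (3 * x)) = lim h m x := by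
    refine ae_all_iff.2 fun m => ?_
    have h2 := coeFn_koop h (lim h m)
    rw [koop_lim] at h2
    filter_upwards [h2] with x hx
    exact hx.symm
  filter_upwards [h1] with x hx
  unfold Lam
  simp only [Set.mem_ofPred_eq, hx]

theorem integral_lam (h : Inv23 μ) [IsFiniteMeasure μ] (m : ℕ) (hm : 1 ≤ m) :
    ∫ x in Lam h, e (m * x) ∂μ = 0 := by
  have hs := measurableSet_Lam h
  have h0 : koop h (indicatorConstLp 2 hs (measure_ne_top μ _) (1 : ℂ)) =
      indicatorConstLp 2 hs (measure_ne_top μ _) (1 : ℂ) := by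
    refine Lp.ext ?_
    have h3 := indicatorConstLp_coeFn (p := 2) (hs := hs) (hμs := measure_ne_top μ (Lam h)) (c := (1 : ℂ))
    have h1 := h.three.quasiMeasurePreserving.ae h3
    filter_upwards [coeFn_koop h (indicatorConstLp 2 hs (measure_ne_top μ _) (1 : ℂ)), h3, h1,
      lam_invariant h] with x h4 h5 h6 h7
    rw [h4, h5, h6]
    by_cases hx : x ∈ Lam h
    · rw [Set.indicator_of_mem hx, Set.indicator_of_mem (h7.2 hx)]
    · rw [Set.indicator_of_notMem hx, Set.indicator_of_notMem fun h8 => hx (h7.1 h8)]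
  have h1 := inner_lim h m _ h0
  rw [L2.inner_indicatorConstLp_one, L2.inner_indicatorConstLp_one] at h1
  have h2 : ∫ x in Lam h, chr μ m x ∂μ = ∫ x in Lam h, e (m * x) ∂μ :=
    setIntegral_congr_ae hs ((coeFn_chr m).mono fun x hx _ => hx)
  have h3 : ∫ x in Lam h, lim h m x ∂μ = 0 := by
    rw [setIntegral_congr_fun hs (g := fun _ => (0 : ℂ)) fun x hx => hx m hm]
    simp
  rw [← h2, h1, h3]


theorem half_aux (h : Inv23 μ)
    (hp : ∀ F : Finset ℕ, (∀ m ∈ F, 1 ≤ m) → ∀ κ δ : ℝ, 0 < κ → 0 < δ → ∃ᶠ n : ℕ in atTop,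
      1 / 2 - δ < μ.real {x | ∀ m ∈ F, ‖avg 1 (2 ^ n) (fun y => e (m * y)) x‖ ≤ κ})
    [IsProbabilityMeasure μ] (F : Finset ℕ) (hF : ∀ m ∈ F, 1 ≤ m) (κ : ℝ) (hκ : 0 < κ) :
    1 / 2 ≤ μ.real {x | ∀ m ∈ F, ‖lim h m x‖ ≤ 2 * κ} := by
  refine le_of_forall_pos_le_add fun δ hδ => ?_
  set c : ℝ := δ / 2 / (F.card + 1) with hc
  have hc0 : 0 < c := by positivity
  have h1 : ∀ᶠ n : ℕ in atTop, ∀ m ∈ F,
      μ.real {x | κ ≤ ‖avg 1 (2 ^ n) (fun y => e (m * y)) x - lim h m x‖} < c := by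
    refine (Filter.eventually_all_finset F).2 fun m _ => ?_
    have h2 := tendstoInMeasure_iff_measureReal_norm.1 (tendsto_lim h m) κ hκ
    have h3 : Tendsto (fun n : ℕ => 2 ^ n) atTop atTop :=
      tendsto_pow_atTop_atTop_of_one_lt (by norm_num)
    exact (h2.comp h3).eventually_lt_const hc0
  obtain ⟨n, h2, h3⟩ := ((hp F hF κ (δ / 2) hκ (by positivity)).and_eventually h1).exists
  have h4 : {x | ∀ m ∈ F, ‖avg 1 (2 ^ n) (fun y => e (m * y)) x‖ ≤ κ} ⊆
      {x | ∀ m ∈ F, ‖lim h m x‖ ≤ 2 * κ} ∪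
        ⋃ m ∈ F, {x | κ ≤ ‖avg 1 (2 ^ n) (fun y => e (m * y)) x - lim h m x‖} := by
    intro x hx
    by_cases h5 : ∀ m ∈ F, ‖avg 1 (2 ^ n) (fun y => e (m * y)) x - lim h m x‖ < κ
    · left
      intro m hm
      have h6 := hx m hm
      have h7 := h5 m hm
      have h8 := norm_sub_norm_le (lim h m x) (avg 1 (2 ^ n) (fun y => e (m * y)) x)
      rw [norm_sub_rev] at h8
      linarith
    · right
      push Not at h5
      obtain ⟨m, hm, h6⟩ := h5
      exact Set.mem_biUnion hm h6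
  have h5 := (measureReal_mono h4 (measure_ne_top μ _)).trans (measureReal_union_le (μ := μ) _ _)
  have h6 : μ.real (⋃ m ∈ F, {x | κ ≤ ‖avg 1 (2 ^ n) (fun y => e (m * y)) x - lim h m x‖}) ≤
      δ / 2 := by
    refine (measureReal_biUnion_finset_le F _).trans ?_
    refine (Finset.sum_le_sum fun m hm => (h3 m hm).le).trans ?_
    rw [sum_const, nsmul_eq_mul, hc]
    rw [mul_div_assoc', div_le_iff₀ (by positivity)]
    nlinarith
  linarith

theorem half_lam (h : Inv23 μ)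
    (hp : ∀ F : Finset ℕ, (∀ m ∈ F, 1 ≤ m) → ∀ κ δ : ℝ, 0 < κ → 0 < δ → ∃ᶠ n : ℕ in atTop,
      1 / 2 - δ < μ.real {x | ∀ m ∈ F, ‖avg 1 (2 ^ n) (fun y => e (m * y)) x‖ ≤ κ})
    [IsProbabilityMeasure μ] : 1 / 2 ≤ μ (Lam h) := by
  set S : ℕ → Set ℝ := fun K => {x | ∀ m ∈ Finset.Icc 1 K, ‖lim h m x‖ ≤ 2 * (1 / (K + 1))} with hS
  have h1 : ∀ K, 1 / 2 ≤ μ (S K) := by
    intro K
    have h2 := half_aux h hp (Finset.Icc 1 K) (fun m hm => (Finset.mem_Icc.1 hm).1) (1 / (K + 1))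
      (by positivity)
    have h3 : ENNReal.ofReal (1 / 2) ≤ ENNReal.ofReal (μ.real (S K)) := ENNReal.ofReal_le_ofReal h2
    rw [ofReal_measureReal] at h3
    refine le_trans (le_of_eq ?_) h3
    rw [ENNReal.ofReal_div_of_pos (by norm_num)]
    simp
  have hm : ∀ K, NullMeasurableSet (S K) μ := by
    intro K
    refine MeasurableSet.nullMeasurableSet ?_
    simp only [hS, Set.ofPred_forall]
    refine MeasurableSet.iInter fun m => MeasurableSet.iInter fun _ => ?_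
    exact measurableSet_le (Lp.stronglyMeasurable (lim h m)).norm.measurable measurable_const
  have ha : Antitone S := by
    intro K L hKL x hx m hm
    have h2 := hx m (Finset.mem_Icc.2 ⟨(Finset.mem_Icc.1 hm).1, (Finset.mem_Icc.1 hm).2.trans hKL⟩)
    refine h2.trans ?_
    gcongr
  have h2 := tendsto_measure_iInter_atTop hm ha ⟨0, measure_ne_top μ _⟩
  have h3 : ⋂ K, S K ⊆ Lam h := by
    intro x hx m hm
    have h4 : ∀ K, m ≤ K → ‖lim h m x‖ ≤ 2 * (1 / ((K : ℝ) + 1)) := fun K hK =>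
      (Set.mem_iInter.1 hx K) m (Finset.mem_Icc.2 ⟨hm, hK⟩)
    have h5 : Tendsto (fun K : ℕ => 2 * (1 / ((K : ℝ) + 1))) atTop (𝓝 (2 * 0)) :=
      tendsto_one_div_add_atTop_nhds_zero_nat.const_mul 2
    rw [mul_zero] at h5
    have h6 := ge_of_tendsto h5 (eventually_atTop.2 ⟨m, h4⟩)
    exact norm_le_zero_iff.1 h6
  exact (ge_of_tendsto h2 (Eventually.of_forall h1)).trans (measure_mono h3)

end

theorem half_of_phase {μ : Measure ℝ} (h : Inv23 μ)
    (hp : ∀ F : Finset ℕ, (∀ m ∈ F, 1 ≤ m) → ∀ κ δ : ℝ, 0 < κ → 0 < δ → ∃ᶠ n : ℕ in atTop,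
      1 / 2 - δ < μ.real {x | ∀ m ∈ F, ‖avg 1 (2 ^ n) (fun y => e (m * y)) x‖ ≤ κ}) :
    Half (μ.map (fun x : ℝ => (x : Tor))) := by
  have := h.prob
  have hmc : Measurable (fun x : ℝ => (x : Tor)) := measurable_coe_circle
  set κ : Measure Tor := (μ.restrict (Lam h)).map (fun x : ℝ => (x : Tor)) with hκ
  have h0 : ∀ m : ℕ, 1 ≤ m → cf (μ.restrict (Lam h)) m = 0 := by
    intro m hm
    have := integral_lam h m hm
    unfold cf
    simpa using this
  have h1 : ∀ m : ℤ, m ≠ 0 → ∫ x, (fourier m x : ℂ) ∂κ = 0 := by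
    intro m hm
    rw [integral_fourier_eq (μ := μ.restrict (Lam h)) (ν := κ) rfl m]
    rcases le_or_gt 0 m with h3 | h3
    · lift m to ℕ using h3
      exact h0 m (by omega)
    · obtain ⟨k, rfl⟩ : ∃ k : ℕ, m = -(k : ℤ) := ⟨m.natAbs, by omega⟩
      rw [cf_neg, h0 k (by omega), star_zero]
  have : IsFiniteMeasure κ := by rw [hκ]; infer_instance
  have h2 := eq_smul_volume κ h1
  have h3 : κ Set.univ = μ (Lam h) := by
    rw [hκ, Measure.map_apply hmc MeasurableSet.univ]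
    simp
  have h4 : κ ≤ μ.map (fun x : ℝ => (x : Tor)) := Measure.map_mono Measure.restrict_le_self hmc
  have h5 := half_lam h hp
  refine ⟨Measure.isProbabilityMeasure_map hmc.aemeasurable, ?_⟩
  have h6 : (1 / 2 : ENNReal) • (volume : Measure Tor) ≤ κ := by
    rw [h2, h3]
    exact Measure.le_intro fun s _ _ => by
      simp only [Measure.smul_apply, smul_eq_mul]
      gcongr
  calc (volume : Measure Tor) = (2 : ENNReal) • ((1 / 2 : ENNReal) • (volume : Measure Tor)) := by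
        rw [smul_smul, one_div, ENNReal.mul_inv_cancel (by norm_num) (by norm_num), one_smul]
    _ ≤ (2 : ENNReal) • (μ.map (fun x : ℝ => (x : Tor))) := by
        exact Measure.le_intro fun s _ _ => by
          have h7 := (h6.trans h4) s
          simp only [Measure.smul_apply, smul_eq_mul] at h7 ⊢
          gcongr

end Helper75.LP
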