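import Mathlib
import Pool.Agent.Helper75.LP.St.L1
import Pool.Agent.Helper75.LP.St.L3
import Pool.Agent.Helper75.LP.St.L4
import Pool.Agent.Helper75.LP.St.L5

/-!
# LP-L6: of two points with a dyadic difference one is in a Lebesgue phase

* `half_or_half`: let `J` be invariant under `T2 2`, `T2 3` with `J.map (p.2 - p.1) = volume`.  Its
  marginals are invariant under `2` and `3`; let `μ₁`, `μ₂` be measures on `[0, 1)` as in `exists_inv23`.  If
  neither marginal is `Half`, then by `half_of_phase` there are `F, κ, δ > 0` with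
  `μ₁ {...} ≤ 1 / 2 - δ` for all large `n`, so by `ent_le_phase` `ent (pr μ₁) (2 ^ k) ≤ (1 / 2 - δ / 2) k log 2`
  for `k` large, similarly for `μ₂`: contradiction with `ent_pair` for `k` large.
* `two_point`: by contradiction choose for every `r` a counterexample `q_r ≥ r`, `k_r`, `d_r`, `τ_r`, `x_r`;
  apply `exists_limit` with an ultrafilter `U ≤ atTop` (`hyperfilter ℕ`), `M (q_r)`, `2 ^ (q_r)` and the points
  `x_r`, `x_r' = x_r + d_r / 2 ^ k_r + τ_r`.  By `diff_small` and `fourier_eq_e` the Fourier coefficients of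
  `J.map (p.2 - p.1)` vanish for `m ≠ 0`, so it is `volume`.  By `half_or_half` one of the marginals, say
  `ν = J.map Prod.fst`, is `Half`.  The numbers `cavg (M q_r) (2 ^ q_r) m x_r` converge along `U` to
  `∫ fourier m dν` for every `m`, so for some `r` they are within `1 / (n + 1)` for all `|m| ≤ n`
  (finitely many `m`): `x_r ∈ Ph M n q_r`, contradiction.
-/

set_option autoImplicit false

open MeasureTheory Finset Filter Topology

namespace Helper75.LP

open Pool.Agent.Helper61.FR Helper75.DF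

private lemma ent_small_or_half {μ : Measure ℝ} (h : Inv23 μ)
    (hn : ¬ Half (μ.map (fun x : ℝ => (x : Tor)))) :
    ∃ δ : ℝ, 0 < δ ∧ ∀ᶠ k : ℕ in atTop,
      ent (pr μ) (2 ^ k) ≤ (1 / 2 - δ / 2) * k * Real.log 2 := by
  have h1 : ¬ (∀ F : Finset ℕ, (∀ m ∈ F, 1 ≤ m) → ∀ κ δ : ℝ, 0 < κ → 0 < δ → ∃ᶠ n : ℕ in atTop,
      1 / 2 - δ < μ.real {x | ∀ m ∈ F, ‖avg 1 (2 ^ n) (fun y => e (m * y)) x‖ ≤ κ}) :=
    fun hp => hn (half_of_phase h hp)
  push Not at h1
  obtain ⟨F, hF, κ, δ, hκ, hδ, hev⟩ := h1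
  refine ⟨δ, hδ, ?_⟩
  have h2 := ent_le_phase h F hF κ (1 / 2 - δ) hκ hev (δ / 2) (by linarith)
  filter_upwards [h2] with k hk
  have e1 : (1 / 2 - δ + δ / 2) = (1 / 2 - δ / 2 : ℝ) := by ring
  rw [e1] at hk
  exact hk

private lemma measurable_T2 (s : ℕ) : Measurable (T2 s) := by
  unfold T2
  fun_prop

private lemma preserving_fst {J : Measure (Tor × Tor)} (s : ℕ)
    (h : MeasurePreserving (T2 s) J J) :
    MeasurePreserving (fun x : Tor => s • x) (J.map Prod.fst) (J.map Prod.fst) := by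
  have hm : Measurable (fun x : Tor => s • x) := by fun_prop
  refine ⟨hm, ?_⟩
  rw [Measure.map_map hm measurable_fst]
  have e1 : (fun x : Tor => s • x) ∘ (Prod.fst : Tor × Tor → Tor) = Prod.fst ∘ T2 s := rfl
  rw [e1, ← Measure.map_map measurable_fst h.measurable, h.map_eq]

private lemma preserving_snd {J : Measure (Tor × Tor)} (s : ℕ)
    (h : MeasurePreserving (T2 s) J J) :
    MeasurePreserving (fun x : Tor => s • x) (J.map Prod.snd) (J.map Prod.snd) := by
  have hm : Measurable (fun x : Tor => s • x) := by fun_prop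
  refine ⟨hm, ?_⟩
  rw [Measure.map_map hm measurable_snd]
  have e1 : (fun x : Tor => s • x) ∘ (Prod.snd : Tor × Tor → Tor) = Prod.snd ∘ T2 s := rfl
  rw [e1, ← Measure.map_map measurable_snd h.measurable, h.map_eq]

theorem half_or_half (J : Measure (Tor × Tor)) [IsProbabilityMeasure J]
    (h2 : MeasurePreserving (T2 2) J J) (h3 : MeasurePreserving (T2 3) J J)
    (hd : J.map (fun p => p.2 - p.1) = volume) :
    Half (J.map Prod.fst) ∨ Half (J.map Prod.snd) := by
  have hp1 : IsProbabilityMeasure (J.map Prod.fst) :=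
    Measure.isProbabilityMeasure_map measurable_fst.aemeasurable
  have hp2 : IsProbabilityMeasure (J.map Prod.snd) :=
    Measure.isProbabilityMeasure_map measurable_snd.aemeasurable
  obtain ⟨μ₁, hμ₁, e₁, -⟩ := exists_inv23 (J.map Prod.fst) (preserving_fst 2 h2)
    (preserving_fst 3 h3)
  obtain ⟨μ₂, hμ₂, e₂, -⟩ := exists_inv23 (J.map Prod.snd) (preserving_snd 2 h2)
    (preserving_snd 3 h3)
  by_contra hcon
  push Not at hcon
  obtain ⟨hn1, hn2⟩ := hcon
  rw [← e₁] at hn1
  rw [← e₂] at hn2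
  obtain ⟨δ₁, hδ₁, hev1⟩ := ent_small_or_half hμ₁ hn1
  obtain ⟨δ₂, hδ₂, hev2⟩ := ent_small_or_half hμ₂ hn2
  have hlin : Tendsto (fun k : ℕ => (k : ℝ) * ((δ₁ + δ₂) / 2)) atTop atTop :=
    tendsto_natCast_atTop_atTop.atTop_mul_const (by linarith)
  obtain ⟨k, hk1, hk2, hk3⟩ := (hev1.and (hev2.and (hlin.eventually_gt_atTop 1))).exists
  have h4 := ent_pair J μ₁ μ₂ hμ₁.supp hμ₂.supp e₁ e₂ hd k
  have hl2 : 0 < Real.log 2 := Real.log_pos (by norm_num)
  nlinarith

private lemma fourier_nsmul (m : ℤ) (s : ℕ) (x : Tor) :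
    (fourier m (s • x) : ℂ) = fourier (m * s) x := by
  rw [fourier_apply, fourier_apply]
  congr 2
  rw [mul_smul, natCast_zsmul]

theorem two_point (M W : ℕ → ℕ) (hM : Tendsto M atTop atTop) (hW : Window W) (n : ℕ) :
    ∃ r : ℕ, ∀ q, r ≤ q → ∀ k, M q + r ≤ k → k ≤ W q → ∀ d : ℤ, Odd d → ∀ τ x : ℝ,
      |τ| * 3 ^ (2 ^ q) * 2 ^ k ≤ 1 →
        (x : Tor) ∈ Ph M n q ∨ ((x + d / 2 ^ k + τ : ℝ) : Tor) ∈ Ph M n q := by
  by_contra hcon
  push Not at hcon
  choose q hq k hk1 hk2 d hd τ x hτ hx hx' using hcon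
  obtain ⟨U, hU⟩ : ∃ U : Ultrafilter ℕ, (U : Filter ℕ) ≤ atTop :=
    ⟨hyperfilter ℕ, Nat.hyperfilter_le_atTop⟩
  have hqt : Tendsto q (U : Filter ℕ) atTop := (tendsto_atTop_mono hq tendsto_id).mono_left hU
  have hMt : Tendsto (fun r => M (q r)) (U : Filter ℕ) atTop := hM.comp hqt
  have hNt : Tendsto (fun r => 2 ^ q r) (U : Filter ℕ) atTop :=
    tendsto_atTop_mono (fun r => Nat.lt_two_pow_self.le) hqt
  obtain ⟨J, hJp, hJc, hJ2, hJ3⟩ := exists_limit U (fun r => M (q r)) (fun r => 2 ^ q r) hMt hNt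
    (fun r => (x r : Tor)) (fun r => ((x r + d r / 2 ^ k r + τ r : ℝ) : Tor))
  have hmd : Measurable (fun p : Tor × Tor => p.2 - p.1) := by fun_prop
  -- the difference is uniformly distributed
  have hdiff : J.map (fun p => p.2 - p.1) = volume := by
    have hprob : IsProbabilityMeasure (J.map (fun p : Tor × Tor => p.2 - p.1)) :=
      Measure.isProbabilityMeasure_map hmd.aemeasurable
    have hz : ∀ m : ℤ, m ≠ 0 → ∫ x, (fourier m x : ℂ) ∂(J.map (fun p => p.2 - p.1)) = 0 := by
      intro m hm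
      rw [integral_map hmd.aemeasurable (fourier m).continuous.aestronglyMeasurable]
      obtain ⟨F, hF⟩ : ∃ F : C(Tor × Tor, ℂ), ∀ p, F p = fourier m (p.2 - p.1) :=
        ⟨⟨fun p => fourier m (p.2 - p.1), by fun_prop⟩, fun p => rfl⟩
      have hlim := hJc F
      have e0 : ∫ p, F p ∂J = ∫ p, (fourier m (p.2 - p.1) : ℂ) ∂J :=
        integral_congr_ae (Eventually.of_forall hF)
      rw [e0] at hlim
      -- the limit is small
      have hsmall : ∀ η : ℝ, 0 < η → ‖∫ p, (fourier m (p.2 - p.1) : ℂ) ∂J‖ ≤ η := by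
        intro η hη
        obtain ⟨r₀, hr₀⟩ := diff_small M W hW m hm η hη
        refine le_of_tendsto hlim.norm ?_
        have h1 : ∀ᶠ r : ℕ in (U : Filter ℕ), r₀ ≤ r := hU (eventually_ge_atTop r₀)
        filter_upwards [h1] with r hr
        have h2 := hr₀ (q r) (hr.trans (hq r)) (k r) (by have := hk1 r; omega) (hk2 r) (d r) (hd r)
          (τ r) (hτ r)
        refine le_of_eq_of_le ?_ h2
        congr 2
        refine sum_congr rfl fun a _ => sum_congr rfl fun b _ => ?_
        rw [hF]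
        simp only
        rw [← smul_sub, ← AddCircle.coe_sub, ← AddCircle.coe_nsmul, fourier_eq_e]
        congr 1
        push_cast
        rw [nsmul_eq_mul]
        push_cast
        ring
      rw [← norm_le_zero_iff]
      exact le_of_forall_pos_le_add fun η hη => by
        rw [zero_add]; exact hsmall η hη
    have h5 := eq_smul_volume (J.map (fun p => p.2 - p.1)) hz
    rw [measure_univ, one_smul] at h5
    exact h5
  -- a `Half` marginal gives a contradiction
  have key : ∀ (π : Tor × Tor → Tor) (hπ : Continuous π) (y : ℕ → Tor),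
      (∀ (r a b : ℕ), π ((2 ^ a * 3 ^ b : ℕ) • (x r : Tor),
        (2 ^ a * 3 ^ b : ℕ) • ((x r + d r / 2 ^ k r + τ r : ℝ) : Tor)) =
          (2 ^ a * 3 ^ b : ℕ) • y r) → Half (J.map π) → (∀ r, y r ∉ Ph M n (q r)) → False := by
    intro π hπ y hy hh hnot
    have hconv : ∀ m ∈ Finset.Icc (-(n : ℤ)) n, ∀ᶠ r in (U : Filter ℕ),
        ‖cavg (M (q r)) (2 ^ q r) m (y r) - ∫ z, (fourier m z : ℂ) ∂(J.map π)‖ < 1 / (n + 1) := by
      intro m _
      rw [integral_map hπ.measurable.aemeasurable (fourier m).continuous.aestronglyMeasurable]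
      obtain ⟨F, hF⟩ : ∃ F : C(Tor × Tor, ℂ), ∀ p, F p = fourier m (π p) :=
        ⟨⟨fun p => fourier m (π p), by fun_prop⟩, fun p => rfl⟩
      have hlim := hJc F
      have e0 : ∫ p, F p ∂J = ∫ p, (fourier m (π p) : ℂ) ∂J :=
        integral_congr_ae (Eventually.of_forall hF)
      rw [e0] at hlim
      have h6 := (Metric.tendsto_nhds.1 hlim) (1 / ((n : ℝ) + 1)) (by positivity)
      filter_upwards [h6] with r hr
      rw [dist_eq_norm] at hr
      refine lt_of_eq_of_lt ?_ hr
      congr 2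
      unfold cavg
      congr 1
      refine sum_congr rfl fun a _ => sum_congr rfl fun b _ => ?_
      rw [hF, hy r a b, fourier_nsmul]
      push_cast
      rfl
    have hall : ∀ᶠ r in (U : Filter ℕ), ∀ m ∈ Finset.Icc (-(n : ℤ)) n,
        ‖cavg (M (q r)) (2 ^ q r) m (y r) - ∫ z, (fourier m z : ℂ) ∂(J.map π)‖ < 1 / (n + 1) :=
      (Finset.eventually_all _).2 hconv
    obtain ⟨r, hr⟩ := hall.exists
    refine hnot r ⟨J.map π, hh, fun m hm => hr m ?_⟩
    rw [Finset.mem_Icc]
    exact abs_le.1 hm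
  rcases half_or_half J hJ2 hJ3 hdiff with h | h
  · exact key Prod.fst continuous_fst (fun r => (x r : Tor)) (fun r a b => rfl) h hx
  · exact key Prod.snd continuous_snd (fun r => ((x r + d r / 2 ^ k r + τ r : ℝ) : Tor))
      (fun r a b => rfl) h hx'

end Helper75.LP
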