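import Mathlib
import Pool.Agent.Helper61.FR.Forward

/-!
# LP-L7: from forward to past positions, for general sets

Proof.  This is the proof of `past_of_forward` in `Pool.Agent.Helper61.FR.Forward` (the part after
`hAr`), with the sets `{x | ∀ m ∈ S, x ∉ dev μ (M q) (2 ^ q) m η}` replaced by the sets `A q`.
-/

set_option autoImplicit false

open MeasureTheory Finset Filter Topology

namespace Helper75.LP

open Pool.Agent.Helper61.FR

theorem past_general {μ : Measure ℝ} (h : Inv23 μ) (A : ℕ → Set ℝ)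
    (hAm : ∀ q, MeasurableSet (A q)) (hAp : ∀ q x, Int.fract x ∈ A q ↔ x ∈ A q) (q₀ : ℕ)
    (hA : μ.real {x | ∀ q, q₀ ≤ q → ∀ i, i ≤ 2 ^ q → 2 ^ i * x ∈ A q}ᶜ ≤ 1 / 32) (n : ℕ) :
    3 / 4 ≤ μ.real {x | ∀ q, q₀ ≤ q → ∀ i, i ≤ n → i ≤ 5 * 2 ^ q →
      Int.fract (2 ^ (n - i) * x) ∈ A q} := by
  have := h.prob
  set G : Set ℝ := {x | ∀ q, q₀ ≤ q → ∀ i, i ≤ 2 ^ q → 2 ^ i * x ∈ A q} with hG
  have hGm : MeasurableSet G := by
    have e1 : G = ⋂ q : ℕ, ⋂ (_ : q₀ ≤ q), ⋂ i : ℕ, ⋂ (_ : i ≤ 2 ^ q),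
        (fun x : ℝ => 2 ^ i * x) ⁻¹' (A q) := by
      ext x
      simp only [hG, Set.mem_ofPred_eq, Set.mem_iInter, Set.mem_preimage]
    rw [e1]
    exact MeasurableSet.iInter fun q => MeasurableSet.iInter fun _ => MeasurableSet.iInter fun i =>
      MeasurableSet.iInter fun _ => (measurable_const_mul _) (hAm q)
  obtain ⟨hPm, hP⟩ := maximal_ineq h.two hGm n
  set Bd := pastBad (fun x : ℝ => Int.fract (2 * x)) G n with hBd
  have hsub : ∀ x ∈ Set.Ico (0 : ℝ) 1, x ∈ G → x ∉ Bd → ∀ q, q₀ ≤ q → ∀ i, i ≤ n →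
      i ≤ 5 * 2 ^ q → Int.fract (2 ^ (n - i) * x) ∈ A q := by
    intro x hx hxA hxB q hq i hin hi
    rw [hAp]
    by_cases hc : n - i ≤ 2 ^ q
    · exact hxA q hq (n - i) hc
    · have hl : i + 2 ^ q ≤ n := by omega
      have hl1 : 1 ≤ i + 2 ^ q := le_add_left Nat.one_le_two_pow
      have hex : ∃ u ∈ Ico (n - (i + 2 ^ q)) (n - i),
          (fun x : ℝ => Int.fract (2 * x))^[u] x ∈ G := by
        by_contra hno
        push Not at hno
        apply hxB
        classical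
        refine ⟨i + 2 ^ q, hl1, hl, ?_⟩
        have h3 : Ico (n - (i + 2 ^ q)) (n - i) ⊆ (Ico (n - (i + 2 ^ q)) n).filter
            fun u => (fun x : ℝ => Int.fract (2 * x))^[u] x ∉ G := by
          intro u hu
          rw [mem_filter, mem_Ico]
          have := mem_Ico.mp hu
          exact ⟨⟨this.1, by omega⟩, hno u hu⟩
        have h4 := card_le_card h3
        rw [Nat.card_Ico] at h4
        have h5 : n - i - (n - (i + 2 ^ q)) = 2 ^ q := by omega
        rw [h5] at h4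
        refine le_trans ?_ (Nat.mul_le_mul_left 7 (le_trans h4 (le_of_eq ?_)))
        · omega
        · congr
      obtain ⟨u, hu, huA⟩ := hex
      rw [mem_Ico] at hu
      rw [iterate_fract_two u x hx] at huA
      have h6 := huA q hq (n - i - u) (by omega)
      rw [← hAp, fract_two_pow_fract, hAp] at h6
      rwa [show n - i - u + u = n - i by omega] at h6
  have h7 : μ.real {x | ∀ q, q₀ ≤ q → ∀ i, i ≤ n → i ≤ 5 * 2 ^ q →
      Int.fract (2 ^ (n - i) * x) ∈ A q}ᶜ ≤ μ.real (Gᶜ ∪ Bd) := by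
    refine ENNReal.toReal_mono (measure_ne_top μ _) (measure_mono_ae ?_)
    filter_upwards [h.supp] with x hx hxc
    by_contra hcon
    have hcon' : x ∈ G ∧ x ∉ Bd := by
      constructor
      · by_contra h8
        exact hcon (Or.inl h8)
      · exact fun h8 => hcon (Or.inr h8)
    exact hxc (hsub x hx hcon'.1 hcon'.2)
  have h8 : μ.real (Gᶜ ∪ Bd) ≤ 1 / 4 := by
    refine (measureReal_union_le _ _).trans ?_
    linarith
  have hmeasG : MeasurableSet {x : ℝ | ∀ q, q₀ ≤ q → ∀ i, i ≤ n → i ≤ 5 * 2 ^ q →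
      Int.fract (2 ^ (n - i) * x) ∈ A q} := by
    have e1 : {x : ℝ | ∀ q, q₀ ≤ q → ∀ i, i ≤ n → i ≤ 5 * 2 ^ q →
        Int.fract (2 ^ (n - i) * x) ∈ A q} =
        ⋂ q : ℕ, ⋂ (_ : q₀ ≤ q), ⋂ i : ℕ, ⋂ (_ : i ≤ n), ⋂ (_ : i ≤ 5 * 2 ^ q),
          (fun x : ℝ => Int.fract (2 ^ (n - i) * x)) ⁻¹' (A q) := by
      ext x
      simp only [Set.mem_ofPred_eq, Set.mem_iInter, Set.mem_preimage]
    rw [e1]
    exact MeasurableSet.iInter fun q => MeasurableSet.iInter fun _ => MeasurableSet.iInter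
      fun i => MeasurableSet.iInter fun _ => MeasurableSet.iInter fun _ =>
      (measurable_fract.comp (measurable_const_mul _)) (hAm q)
  have h9 := probReal_compl_eq_one_sub hmeasG (μ := μ)
  rw [h9] at h7
  linarith

end Helper75.LP
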