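import Mathlib
import Pool.Agent.Helper40.TMA.Mean
import Pool.Agent.Helper75.LP.Defs

/-!
# LP-L8: ergodicity for sets

Proof.  Let `A ⊆ T 2 ⁻¹' A`, `A ⊆ T 3 ⁻¹' A`; as `T 2`, `T 3` preserve `μ` these are equalities up to
null sets.  So for every `k`, `∫_A fourier k dμ = ∫_A (box average of fourier k) dμ` (for `k ≥ 0`, in
the notation of `box_averages`), which tends to `ft μ k * μ A` by `box_averages`
(`Pool.Agent.Helper40.TMA.Mean`; convergence in `L²` implies convergence of the integrals over `A`).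
For `k < 0` conjugate.  So the finite measures `μ.restrict A` and `μ A • μ` have the same Fourier
coefficients and are equal; evaluating at `A`: `μ A = μ A * μ A`.
-/

set_option autoImplicit false

open MeasureTheory Finset Filter Topology

namespace Helper75.LP

open Helper58.FX

open scoped ComplexConjugate

private lemma L8_pres {μ : Measure Tor} [IsProbabilityMeasure μ] {n : ℕ}
    (h : MeasurePreserving (T n) μ μ) {A : Set Tor} (hA : MeasurableSet A)
    (hAn : A ⊆ T n ⁻¹' A) : MeasurePreserving (T n) (μ.restrict A) (μ.restrict A) := by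
  have hae : T n ⁻¹' A =ᵐ[μ] A := by
    refine (ae_eq_of_subset_of_measure_ge hAn ?_ hA.nullMeasurableSet
      (measure_ne_top μ _)).symm
    exact (h.measure_preimage hA.nullMeasurableSet).le
  have h1 := h.restrict_preimage hA
  rwa [Measure.restrict_congr_set hae] at h1

private lemma L8_integrable (ν : Measure Tor) [IsFiniteMeasure ν] (k : ℤ) :
    Integrable (fun x : Tor => (fourier k x : ℂ)) ν :=
  Helper17.TranslM.integrable_cont ν (fourier k).continuous

private lemma L8_mul {ν : Measure Tor} {n : ℕ} (h : MeasurePreserving (T n) ν ν) (k : ℤ) :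
    ft ν (k * n) = ft ν k := by
  unfold ft
  have h1 := integral_map (μ := ν) (Helper17.TranslM.measurable_T n).aemeasurable
    (f := fun x : Tor => (fourier k x : ℂ)) (fourier k).continuous.aestronglyMeasurable
  have h2 : Measure.map (Helper17.TranslM.T n) ν = ν := h.map_eq
  rw [h2] at h1
  rw [h1]
  refine integral_congr_ae (Eventually.of_forall fun x => ?_)
  simp only [Helper17.TranslM.T]
  rw [Helper58.FH.fourier_nsmul, mul_comm]

private lemma L8_mul_pow {ν : Measure Tor} (h2 : MeasurePreserving (T 2) ν ν)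
    (h3 : MeasurePreserving (T 3) ν ν) (k : ℤ) (i j : ℕ) :
    ft ν (k * (2 ^ i * 3 ^ j)) = ft ν k := by
  induction i with
  | zero =>
    induction j with
    | zero => simp
    | succ j ih =>
      rw [pow_zero, one_mul] at ih ⊢
      rw [pow_succ, ← mul_assoc]
      exact (L8_mul h3 _).trans ih
  | succ i ih =>
    rw [show k * (2 ^ (i + 1) * 3 ^ j) = k * (2 ^ i * 3 ^ j) * ((2 : ℕ) : ℤ) by push_cast; ring]
    exact (L8_mul h2 _).trans ih

private lemma L8_box {ν : Measure Tor} [IsFiniteMeasure ν] (h2 : MeasurePreserving (T 2) ν ν)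
    (h3 : MeasurePreserving (T 3) ν ν) (k I J : ℕ) (hI : 1 ≤ I) (hJ : 1 ≤ J) :
    ∫ x, Helper58.FH.Bx k I J x ∂ν = ft ν k := by
  unfold Helper58.FH.Bx
  rw [integral_const_mul, integral_finsetSum _ fun s _ => L8_integrable ν _]
  have h1 : ∀ s ∈ range I ×ˢ range J,
      ∫ x, (fourier ((k : ℤ) * (2 ^ s.1 * 3 ^ s.2)) x : ℂ) ∂ν = ft ν k := fun s _ =>
    L8_mul_pow h2 h3 k s.1 s.2
  rw [sum_congr rfl h1, sum_const, card_product, card_range, card_range, nsmul_eq_mul]
  have hI' : (I : ℂ) ≠ 0 := by exact_mod_cast (by omega : I ≠ 0)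
  have hJ' : (J : ℂ) ≠ 0 := by exact_mod_cast (by omega : J ≠ 0)
  push_cast
  field_simp

private lemma L8_sq {μ : Measure Tor} [IsProbabilityMeasure μ] (A : Set Tor)
    (g : Tor → ℂ) (hg : Continuous g) (η : ℝ) (h : ∫ x, ‖g x‖ ^ 2 ∂μ ≤ η) :
    ‖∫ x in A, g x ∂μ‖ ^ 2 ≤ η := by
  set t := ‖∫ x in A, g x ∂μ‖ with ht
  have hi1 : Integrable (fun x => ‖g x‖) (μ.restrict A) :=
    Helper17.TranslM.integrable_cont _ hg.norm
  have hi2 : Integrable (fun x => ‖g x‖ ^ 2) (μ.restrict A) :=
    Helper17.TranslM.integrable_cont _ (hg.norm.pow 2)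
  have hi3 : Integrable (fun x => ‖g x‖ ^ 2) μ :=
    Helper17.TranslM.integrable_cont _ (hg.norm.pow 2)
  have h1 : t ≤ ∫ x in A, ‖g x‖ ∂μ := norm_integral_le_integral_norm _
  have h2 : ∫ x in A, 2 * t * ‖g x‖ ∂μ ≤ ∫ x in A, (t ^ 2 + ‖g x‖ ^ 2) ∂μ := by
    refine integral_mono (hi1.const_mul _) ((integrable_const _).add hi2) fun x => ?_
    nlinarith [sq_nonneg (t - ‖g x‖)]
  rw [integral_const_mul, integral_add (integrable_const _) hi2, integral_const,
    smul_eq_mul] at h2
  have h3 : (μ.restrict A).real Set.univ ≤ 1 := by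
    rw [measureReal_restrict_apply MeasurableSet.univ]
    exact measureReal_le_one
  have h4 : ∫ x in A, ‖g x‖ ^ 2 ∂μ ≤ ∫ x, ‖g x‖ ^ 2 ∂μ :=
    setIntegral_le_integral hi3 (Eventually.of_forall fun x => by positivity)
  have ht0 : 0 ≤ t := norm_nonneg _
  nlinarith [mul_le_mul_of_nonneg_left h1 ht0, mul_le_mul_of_nonneg_right h3 (sq_nonneg t)]

private lemma L8_neg {ν : Measure Tor} (k : ℤ) : ft ν (-k) = conj (ft ν k) := by
  unfold ft
  rw [← integral_conj]
  refine integral_congr_ae (Eventually.of_forall fun x => ?_)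
  simp only
  rw [fourier_neg]

theorem erg_sets {μ : Measure Tor} [IsProbabilityMeasure μ] (h2 : MeasurePreserving (T 2) μ μ)
    (h3 : MeasurePreserving (T 3) μ μ) (hE : Erg (ft μ)) (A : Set Tor) (hA : MeasurableSet A)
    (hA2 : A ⊆ T 2 ⁻¹' A) (hA3 : A ⊆ T 3 ⁻¹' A) : μ A = 0 ∨ μ A = 1 := by
  have hν2 := L8_pres h2 hA hA2
  have hν3 := L8_pres h3 hA hA3
  have hnat : ∀ k : ℕ, ft (μ.restrict A) k = (μ.real A : ℂ) * ft μ k := by
    intro k
    have hle : ∀ η : ℝ, 0 < η → ‖ft (μ.restrict A) k - (μ.real A : ℂ) * ft μ k‖ ^ 2 ≤ η := by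
      intro η hη
      obtain ⟨K, hK⟩ := Pool.Agent.Helper40.TMA.box_averages h2 h3 hE k η hη
      have h1 := hK (K + 1) (K + 1) (by omega) (by omega)
      have hcont : Continuous fun x : Tor => Helper58.FH.Bx k (K + 1) (K + 1) x - ft μ k :=
        (Helper58.FH.continuous_Bx k _ _).sub continuous_const
      have h4 := L8_sq A _ hcont η h1
      rw [integral_sub (Helper17.TranslM.integrable_cont _ (Helper58.FH.continuous_Bx k _ _))
        (integrable_const _), L8_box hν2 hν3 k _ _ (by omega) (by omega), integral_const,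
        measureReal_restrict_apply MeasurableSet.univ, Set.univ_inter, Complex.real_smul] at h4
      exact h4
    have h0 : ‖ft (μ.restrict A) k - (μ.real A : ℂ) * ft μ k‖ ^ 2 ≤ 0 :=
      le_of_forall_pos_le_add fun η hη => by
        rw [zero_add]
        exact hle η hη
    have h00 : ‖ft (μ.restrict A) k - (μ.real A : ℂ) * ft μ k‖ = 0 := by
      have := norm_nonneg (ft (μ.restrict A) k - (μ.real A : ℂ) * ft μ k)
      nlinarith
    exact sub_eq_zero.1 (norm_eq_zero.1 h00)
  have hall : ∀ k : ℤ, ft (μ.restrict A) k = (μ.real A : ℂ) * ft μ k := by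
    intro k
    rcases Int.eq_nat_or_neg k with ⟨n, rfl | rfl⟩
    · exact hnat n
    · rw [L8_neg, L8_neg, hnat n, map_mul, Complex.conj_ofReal]
  have : IsFiniteMeasure (μ A • μ) := Measure.smul_finite μ (measure_ne_top μ A)
  have hm : μ.restrict A = μ A • μ := by
    refine Helper17.TranslM.eq_of_fourier fun m => ?_
    have h1 := hall m
    unfold ft at h1
    rw [h1, integral_smul_measure, Complex.real_smul]
    rfl
  have h5 : μ A = μ A * μ A := by
    have h6 := congrArg (fun ρ : Measure Tor => ρ A) hm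
    simpa [Measure.restrict_apply hA] using h6
  by_cases h0 : μ A = 0
  · exact Or.inl h0
  · right
    have h7 : μ A * 1 = μ A * μ A := by rw [mul_one]; exact h5
    exact ((ENNReal.mul_right_inj h0 (measure_ne_top μ A)).1 h7).symm

end Helper75.LP
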