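import Mathlib
import Pool.Agent.Helper75.LP.Defs

/-!
# LP-L9: finitely supported measures have no Lebesgue phases

Proof.  Let `Z` be a finite set of full measure.  As `T 2`, `T 3` preserve `μ`, for almost every `x` all the
points `2 ^ i 3 ^ k x` are in `Z` (countable intersection).  Let
`f y = c * ∏ z ∈ Z, ‖fourier 1 y - fourier 1 z‖ ^ 2`, with `c > 0` such that `∫ f dλ = 1` (`f` is
continuous, nonnegative and not identically zero).  `f` is a trigonometric polynomial,
`f = ∑_{|m| ≤ N} c_m fourier m`; let `n ≥ N` with `∑ |c_m| < (n + 1) / 2`.  If `x` is such a point and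
`(2 ^ i) • x ∈ Ph M n q` with the measure `ν`, then
`0 = ∑ c_m cavg (M q) (2 ^ q) m (2 ^ i x)` (average of `f` over points of `Z`; also if `M q = 0`), so
`∫ f dν ≤ ∑ |c_m| / (n + 1) < 1 / 2`, but `∫ f dν ≥ (1 / 2) ∫ f dλ = 1 / 2`.
-/

set_option autoImplicit false

open MeasureTheory Finset Filter Topology

namespace Helper75.LP

open Pool.Agent.Helper61.FR

lemma fourier_mul_nat (m : ℤ) (j : ℕ) (x : Tor) :
    (fourier (m * j) x : ℂ) = fourier m ((j : ℕ) • x) := by
  rw [fourier_apply, fourier_apply]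
  congr 2
  rw [mul_smul]
  simp

/-- A trigonometric polynomial which vanishes on `Z`, with real nonnegative values. -/
lemma exists_trig (Z : Set Tor) (hZ : Z.Finite) :
    ∃ (P : C(Tor, ℂ)) (c : ℤ →₀ ℂ), (∀ y, P y = 0 ↔ y ∈ Z) ∧
      ∀ y, ((‖P y‖ ^ 2 : ℝ) : ℂ) = ∑ m ∈ c.support, c m * fourier m y := by
  set P : C(Tor, ℂ) := ∏ z ∈ hZ.toFinset, (fourier 1 - algebraMap ℂ C(Tor, ℂ) (fourier 1 z)) with hP
  have hmem : P ∈ (fourierSubalgebra (T := (1 : ℝ))) := by
    refine Subalgebra.prod_mem _ fun z _ => ?_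
    refine Subalgebra.sub_mem _ ?_ (Subalgebra.algebraMap_mem _ _)
    exact Algebra.subset_adjoin ⟨1, rfl⟩
  have hmem2 : P * star P ∈ Submodule.span ℂ (Set.range (fourier (T := (1 : ℝ)))) := by
    rw [← fourierSubalgebra_coe]
    have h0 : P * star P ∈ (fourierSubalgebra (T := (1 : ℝ))) := mul_mem hmem (star_mem hmem)
    exact h0
  obtain ⟨c, hc⟩ := Finsupp.mem_span_range_iff_exists_finsupp.mp hmem2
  refine ⟨P, c, fun y => ?_, fun y => ?_⟩
  · have : P y = ∏ z ∈ hZ.toFinset, (fourier 1 y - fourier 1 z) := by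
      rw [hP, ContinuousMap.prod_apply]
      refine Finset.prod_congr rfl fun z _ => ?_
      simp [Algebra.algebraMap_eq_smul_one]
    rw [this, Finset.prod_eq_zero_iff]
    constructor
    · rintro ⟨z, hz, h⟩
      rw [sub_eq_zero, fourier_one, fourier_one] at h
      have h2 := AddCircle.injective_toCircle (one_ne_zero) (Subtype.coe_injective h)
      rw [h2]
      exact hZ.mem_toFinset.mp hz
    · intro hy
      exact ⟨y, hZ.mem_toFinset.mpr hy, sub_self _⟩
  · have h1 : (P * star P) y = ((‖P y‖ ^ 2 : ℝ) : ℂ) := by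
      simp only [ContinuousMap.mul_apply, ContinuousMap.star_apply]
      rw [RCLike.star_def, Complex.mul_conj']
      push_cast
      rfl
    rw [← h1, ← hc, Finsupp.sum]
    simp [ContinuousMap.sum_apply]

theorem no_phases {μ : Measure Tor} [IsProbabilityMeasure μ]
    (h2 : MeasurePreserving (fun x : Tor => (2 : ℕ) • x) μ μ)
    (h3 : MeasurePreserving (fun x : Tor => (3 : ℕ) • x) μ μ) (Z : Set Tor) (hZ : Z.Finite)
    (hμ : μ Zᶜ = 0) (M : ℕ → ℕ) :
    ∃ n : ℕ, ∀ᵐ x ∂μ, ∀ q i : ℕ, (2 ^ i : ℕ) • x ∉ Ph M n q := by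
  obtain ⟨P, c, hP, hc⟩ := exists_trig Z hZ
  have hcontr : Continuous fun y : Tor => ‖P y‖ ^ 2 := (P.continuous.norm).pow 2
  set I : ℝ := ∫ y, ‖P y‖ ^ 2 ∂(volume : Measure Tor) with hI
  have hIpos : 0 < I := by
    rw [hI, integral_pos_iff_support_of_nonneg (fun y => by positivity)
      (Helper17.TranslM.integrable_cont volume hcontr)]
    have hsupp : Function.support (fun y : Tor => ‖P y‖ ^ 2) = Zᶜ := by
      ext y
      simp [Function.mem_support, hP y]
    rw [hsupp]
    refine (hZ.isClosed.isOpen_compl).measure_pos _ ?_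
    by_contra hne
    rw [Set.not_nonempty_iff_eq_empty, Set.compl_empty_iff] at hne
    rw [hne] at hZ
    have : Infinite Tor := by
      haveI : Fact ((0 : ℝ) < 1) := ⟨one_pos⟩
      have e := (AddCircle.equivIco (1 : ℝ) 0)
      exact (Equiv.infinite_iff e).mpr (Set.infinite_coe_iff.mpr (Set.Ico_infinite (by norm_num)))
    exact Set.infinite_univ hZ
  set C : ℝ := ∑ m ∈ c.support, ‖c m‖ with hC
  obtain ⟨n1, hn1⟩ := exists_nat_gt (2 * C / I)
  set n : ℕ := n1 + ∑ m ∈ c.support, m.natAbs with hn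
  refine ⟨n, ?_⟩
  have hae : ∀ᵐ x ∂μ, ∀ i k : ℕ, (2 ^ i * 3 ^ k : ℕ) • x ∈ Z := by
    rw [ae_all_iff]
    intro i
    rw [ae_all_iff]
    intro k
    have hk : ∀ k : ℕ, MeasurePreserving (fun x : Tor => (3 ^ k : ℕ) • x) μ μ := by
      intro k
      induction k with
      | zero =>
        have h0 := MeasurePreserving.id μ
        refine (congrArg (fun g => MeasurePreserving g μ μ) ?_).mp h0
        funext x
        simp
      | succ k ih =>
        have := ih.comp h3
        refine (congrArg (fun g => MeasurePreserving g μ μ) ?_).mp this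
        funext x
        simp only [Function.comp]
        rw [pow_succ, mul_smul]
    have hi : ∀ i : ℕ, MeasurePreserving (fun x : Tor => (2 ^ i * 3 ^ k : ℕ) • x) μ μ := by
      intro i
      induction i with
      | zero => simpa using hk k
      | succ i ih =>
        have := ih.comp h2
        refine (congrArg (fun g => MeasurePreserving g μ μ) ?_).mp this
        funext x
        simp only [Function.comp]
        rw [smul_smul]
        congr 1
        ring
    have h5 : ∀ᵐ x ∂μ, x ∈ Z := by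
      rw [ae_iff]
      exact hμ
    exact (hi i).quasiMeasurePreserving.ae h5
  filter_upwards [hae] with x hx q i hmem
  obtain ⟨ν, ⟨hν1, hν2⟩, hν3⟩ := hmem
  haveI := hν1
  have hz : ∑ m ∈ c.support, c m * cavg (M q) (2 ^ q) m ((2 ^ i : ℕ) • x) = 0 := by
    unfold cavg
    have : ∀ m : ℤ, c m * ((∑ i' ∈ range (M q), ∑ k ∈ range (2 ^ q),
        (fourier (m * (2 ^ i' * 3 ^ k)) ((2 ^ i : ℕ) • x) : ℂ)) / ((M q : ℕ) * ((2 ^ q : ℕ) : ℂ))) =
        (∑ i' ∈ range (M q), ∑ k ∈ range (2 ^ q),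
          c m * (fourier m ((2 ^ (i' + i) * 3 ^ k : ℕ) • x) : ℂ)) / ((M q : ℕ) * ((2 ^ q : ℕ) : ℂ)) := by
      intro m
      rw [← mul_div_assoc, Finset.mul_sum]
      congr 1
      refine Finset.sum_congr rfl fun i' _ => ?_
      rw [Finset.mul_sum]
      refine Finset.sum_congr rfl fun k _ => ?_
      have h6 : (m * (2 ^ i' * 3 ^ k) : ℤ) = m * ((2 ^ i' * 3 ^ k : ℕ) : ℤ) := by push_cast; ring
      rw [h6, fourier_mul_nat, smul_smul]
      congr 3
      ring
    simp only [this]
    rw [← Finset.sum_div, Finset.sum_comm]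
    have h7 : ∀ i' ∈ range (M q), (∑ m ∈ c.support, ∑ k ∈ range (2 ^ q),
        c m * (fourier m ((2 ^ (i' + i) * 3 ^ k : ℕ) • x) : ℂ)) = 0 := by
      intro i' _
      rw [Finset.sum_comm]
      refine Finset.sum_eq_zero fun k _ => ?_
      rw [← hc, (hP _).mpr (hx (i' + i) k)]
      simp
    rw [Finset.sum_eq_zero h7, zero_div]
  have hfi : ∀ m : ℤ, Integrable (fun y : Tor => c m * (fourier m y : ℂ)) ν := by
    intro m
    exact (Helper17.TranslM.integrable_cont ν (fourier m).continuous).const_mul _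
  have hint : ((∫ y, ‖P y‖ ^ 2 ∂ν : ℝ) : ℂ) =
      ∑ m ∈ c.support, c m * ∫ y, (fourier m y : ℂ) ∂ν := by
    rw [← integral_complex_ofReal]
    simp only [hc]
    rw [integral_finsetSum _ (fun m _ => hfi m)]
    refine Finset.sum_congr rfl fun m _ => ?_
    rw [integral_const_mul]
  have hub : ∫ y, ‖P y‖ ^ 2 ∂ν ≤ C * (1 / (n + 1)) := by
    have h8 : ∫ y, ‖P y‖ ^ 2 ∂ν = ‖((∫ y, ‖P y‖ ^ 2 ∂ν : ℝ) : ℂ)‖ := by
      rw [Complex.norm_real, Real.norm_eq_abs, abs_of_nonneg]
      exact integral_nonneg fun y => by positivity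
    rw [h8, hint, ← sub_zero (∑ m ∈ c.support, c m * ∫ y, (fourier m y : ℂ) ∂ν), ← hz,
      ← Finset.sum_sub_distrib]
    refine (norm_sum_le _ _).trans ?_
    rw [hC, Finset.sum_mul]
    refine Finset.sum_le_sum fun m hm => ?_
    rw [← mul_sub, norm_mul]
    refine mul_le_mul_of_nonneg_left ?_ (norm_nonneg _)
    rw [norm_sub_rev]
    refine (hν3 m ?_).le
    have h9 : m.natAbs ≤ n := by
      rw [hn]
      exact (Finset.single_le_sum (f := fun m : ℤ => m.natAbs) (fun _ _ => Nat.zero_le _) hm).trans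
        (Nat.le_add_left _ _)
    rw [Int.abs_eq_natAbs]
    exact_mod_cast h9
  have hlb : I ≤ 2 * ∫ y, ‖P y‖ ^ 2 ∂ν := by
    have h10 : ∫ y, ‖P y‖ ^ 2 ∂((2 : ENNReal) • ν) = 2 * ∫ y, ‖P y‖ ^ 2 ∂ν := by
      rw [integral_smul_measure]
      simp
    rw [← h10, hI]
    refine integral_mono_measure hν2 (Eventually.of_forall fun y => by positivity) ?_
    exact (Helper17.TranslM.integrable_cont ν hcontr).smul_measure (by simp)
  have h11 : (2 * C / I : ℝ) < n + 1 := by
    have : (n1 : ℝ) ≤ n := by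
      rw [hn]
      push_cast
      have : (0 : ℝ) ≤ ∑ m ∈ c.support, (m.natAbs : ℝ) := Finset.sum_nonneg fun _ _ => by positivity
      linarith
    linarith
  rw [div_lt_iff₀ hIpos] at h11
  have h12 : (0 : ℝ) < n + 1 := by positivity
  have h13 : I ≤ 2 * (C * (1 / (n + 1))) := hlb.trans (by linarith)
  have h14 : 2 * (C * (1 / ((n : ℝ) + 1))) = 2 * C / (n + 1) := by ring
  rw [h14, le_div_iff₀ h12] at h13
  nlinarith

end Helper75.LP
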